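import Mathlib

/-!
# An approximation of AND by a real polynomial of small degree
-/

set_option autoImplicit false

namespace Pool.Agent.ALM

open Finset Polynomial

/-- The degree of the approximation. -/
def adeg (n L : ℕ) : ℕ := L + Nat.clog 2 (2 * n) * (Nat.sqrt (n * L) + 1)

lemma adeg_mono {n n' : ℕ} (h : n ≤ n') (L : ℕ) : adeg n L ≤ adeg n' L := by
  unfold adeg
  have h1 : Nat.clog 2 (2 * n) ≤ Nat.clog 2 (2 * n') := Nat.clog_mono_right 2 (by omega)
  have h2 : Nat.sqrt (n * L) ≤ Nat.sqrt (n' * L) := Nat.sqrt_le_sqrt (Nat.mul_le_mul_right L h)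
  have h3 := Nat.mul_le_mul h1 (Nat.add_le_add_right h2 1)
  omega

/-- The polynomial with value `1` at `n` and zeros at `n - 1, …, n - L`. -/
noncomputable def zpoly (n L : ℕ) : ℝ[X] :=
  ∏ j ∈ range L, (C ((j + 1 : ℝ)⁻¹) * (X - C ((n : ℝ) - (j + 1))))

lemma zpoly_natDegree (n L : ℕ) : (zpoly n L).natDegree ≤ L := by
  unfold zpoly
  refine (natDegree_prod_le _ _).trans ?_
  calc ∑ j ∈ range L, (C ((j + 1 : ℝ)⁻¹) * (X - C ((n : ℝ) - (j + 1)))).natDegree
      ≤ ∑ _j ∈ range L, 1 := by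
        refine Finset.sum_le_sum fun j _ => ?_
        refine (natDegree_C_mul_le _ _).trans ?_
        exact natDegree_X_sub_C_le _
    _ = L := by simp

lemma zpoly_eval (n L : ℕ) (t : ℝ) :
    (zpoly n L).eval t = ∏ j ∈ range L, ((j + 1 : ℝ)⁻¹ * (t - ((n : ℝ) - (j + 1)))) := by
  unfold zpoly
  rw [eval_prod]
  refine Finset.prod_congr rfl fun j _ => ?_
  simp

lemma zpoly_top (n L : ℕ) : (zpoly n L).eval (n : ℝ) = 1 := by
  rw [zpoly_eval]
  refine Finset.prod_eq_one fun j _ => ?_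
  have : (j + 1 : ℝ) ≠ 0 := by positivity
  field_simp
  ring

lemma zpoly_zero {n L i : ℕ} (h1 : i < n) (h2 : n ≤ i + L) : (zpoly n L).eval (i : ℝ) = 0 := by
  rw [zpoly_eval]
  refine Finset.prod_eq_zero (i := n - 1 - i) (mem_range.mpr (by omega)) ?_
  have h3 : ((n - 1 - i : ℕ) : ℝ) = (n : ℝ) - 1 - i := by
    rw [Nat.cast_sub (by omega), Nat.cast_sub (by omega)]
    simp
  rw [h3]
  ring

lemma zpoly_le {n L i : ℕ} (hL : L ≤ n) (hi : i ≤ n) : |(zpoly n L).eval (i : ℝ)| ≤ (n : ℝ) ^ L := by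
  rw [zpoly_eval, Finset.abs_prod]
  calc ∏ j ∈ range L, |(j + 1 : ℝ)⁻¹ * ((i : ℝ) - ((n : ℝ) - (j + 1)))|
      ≤ ∏ _j ∈ range L, (n : ℝ) := by
        refine Finset.prod_le_prod (fun _ _ => abs_nonneg _) fun j hj => ?_
        have hj' : (j : ℝ) + 1 ≤ n := by exact_mod_cast (mem_range.mp hj).trans_le hL
        have hi' : (i : ℝ) ≤ n := by exact_mod_cast hi
        have hi0 : (0 : ℝ) ≤ i := Nat.cast_nonneg i
        have hj0 : (0 : ℝ) ≤ j := Nat.cast_nonneg j
        rw [abs_mul, abs_of_pos (by positivity : (0 : ℝ) < (j + 1 : ℝ)⁻¹)]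
        have e1 : (j + 1 : ℝ)⁻¹ ≤ 1 := inv_le_one_of_one_le₀ (by linarith)
        have e2 : |(i : ℝ) - ((n : ℝ) - (j + 1))| ≤ n := by
          rw [abs_le]
          constructor <;> linarith
        calc (j + 1 : ℝ)⁻¹ * |(i : ℝ) - ((n : ℝ) - (j + 1))| ≤ 1 * n :=
              mul_le_mul e1 e2 (abs_nonneg _) (by norm_num)
          _ = n := one_mul _
    _ = (n : ℝ) ^ L := by simp

/-- The main case. -/
lemma exists_poly_main {n L : ℕ} (hL : 1 ≤ L) (hn : L < n) : ∃ P : ℝ[X],
    P.natDegree ≤ adeg n L ∧ P.eval (n : ℝ) = 1 ∧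
      ∀ i : ℕ, i < n → |P.eval (i : ℝ)| ≤ (1 / 2) ^ L := by
  have hn0 : (0 : ℝ) < n := by
    have : 0 < n := by omega
    exact_mod_cast this
  have hL0 : (1 : ℝ) ≤ L := by exact_mod_cast hL
  set D : ℕ := Nat.clog 2 (2 * n) * (Nat.sqrt (n * L) + 1) with hD
  set θ : ℝ := Real.sqrt (2 * L / n) with hθ
  have hθ0 : 0 ≤ θ := Real.sqrt_nonneg _
  have hθ2 : θ ^ 2 = 2 * L / n := Real.sq_sqrt (by positivity)
  have hT : (Chebyshev.T ℝ (D : ℤ)).eval (Real.cosh θ) = Real.cosh (D * θ) := by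
    have := Chebyshev.T_real_cosh θ (D : ℤ)
    rw [this]
    simp
  have hTpos : 0 < Real.cosh (D * θ) := Real.cosh_pos _
  -- the growth
  have hgrow : 2 * (2 * (n : ℝ)) ^ L ≤ Real.exp (D * θ) := by
    set l : ℕ := Nat.clog 2 (2 * n) with hl
    have hl1 : 1 ≤ l := Nat.clog_pos (by norm_num) (by omega)
    have e1 : Real.sqrt (n * L) ≤ Nat.sqrt (n * L) + 1 := by
      rw [Real.sqrt_le_left (by positivity)]
      have := Nat.lt_succ_sqrt (n * L)
      have h2 : ((n * L : ℕ) : ℝ) ≤ ((Nat.sqrt (n * L) + 1) * (Nat.sqrt (n * L) + 1) : ℕ) := by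
        exact_mod_cast this.le
      push_cast at h2
      nlinarith
    have e2 : Real.sqrt (n * L) * θ = Real.sqrt 2 * L := by
      rw [hθ, ← Real.sqrt_mul (by positivity)]
      have : (n : ℝ) * L * (2 * L / n) = 2 * L ^ 2 := by field_simp
      rw [this, Real.sqrt_mul (by norm_num), Real.sqrt_sq (by linarith)]
    have e3 : 2 * Real.log 2 ≤ Real.sqrt 2 := by
      have h1 := Real.log_two_lt_d9
      refine Real.le_sqrt_of_sq_le ?_
      have h0 : 0 < Real.log 2 := Real.log_pos (by norm_num)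
      nlinarith
    have e4 : (2 * L : ℕ) * (l * Real.log 2) ≤ D * θ := by
      have h1 : (l : ℝ) * (Real.sqrt 2 * L) ≤ D * θ := by
        rw [← e2, hD]
        push_cast
        rw [← mul_assoc, mul_assoc (l : ℝ) (((Nat.sqrt (n * L) : ℕ) : ℝ) + 1) θ, mul_assoc]
        exact mul_le_mul_of_nonneg_left (mul_le_mul_of_nonneg_right e1 hθ0) (by positivity)
      refine le_trans ?_ h1
      push_cast
      have h2 : (0 : ℝ) ≤ l * L := by positivity
      nlinarith
    have e5 : Real.exp ((2 * L : ℕ) * (l * Real.log 2)) = ((2 : ℝ) ^ l) ^ (2 * L) := by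
      rw [Real.exp_nat_mul, Real.exp_nat_mul, Real.exp_log (by norm_num)]
    have e6 : (2 * (n : ℝ)) ≤ 2 ^ l := by
      exact_mod_cast Nat.le_pow_clog (by norm_num) (2 * n)
    have e7 : (2 : ℝ) ≤ (2 * (n : ℝ)) ^ L := by
      have h1 : (1 : ℝ) ≤ n := by
        have : 1 ≤ n := by omega
        exact_mod_cast this
      calc (2 : ℝ) ≤ 2 * n := by linarith
        _ = (2 * (n : ℝ)) ^ 1 := (pow_one _).symm
        _ ≤ (2 * (n : ℝ)) ^ L := pow_le_pow_right₀ (by linarith) hL
    calc 2 * (2 * (n : ℝ)) ^ L ≤ (2 * (n : ℝ)) ^ L * (2 * (n : ℝ)) ^ L :=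
          mul_le_mul_of_nonneg_right e7 (by positivity)
      _ = (2 * (n : ℝ)) ^ (2 * L) := by rw [two_mul L, pow_add]
      _ ≤ ((2 : ℝ) ^ l) ^ (2 * L) := pow_le_pow_left₀ (by positivity) e6 _
      _ = Real.exp ((2 * L : ℕ) * (l * Real.log 2)) := e5.symm
      _ ≤ Real.exp (D * θ) := Real.exp_le_exp.mpr e4
  have hcosh : Real.exp (D * θ) / 2 ≤ Real.cosh (D * θ) := by
    rw [Real.cosh_eq]
    have := Real.exp_pos (-(D * θ))
    linarith
  -- the scaling
  have hscale : ((n : ℝ) - L) / n * Real.cosh θ ≤ 1 := by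
    have e1 : Real.cosh θ ≤ Real.exp (L / n) := by
      refine (Real.cosh_le_exp_half_sq θ).trans (Real.exp_le_exp.mpr ?_)
      rw [hθ2]
      exact le_of_eq (by ring)
    have e2 : ((n : ℝ) - L) / n ≤ Real.exp (-(L / n)) := by
      have := Real.add_one_le_exp (-((L : ℝ) / n))
      have e3 : ((n : ℝ) - L) / n = -((L : ℝ) / n) + 1 := by
        field_simp
        ring
      linarith
    have e4 : 0 ≤ ((n : ℝ) - L) / n := by
      have : (L : ℝ) ≤ n := by exact_mod_cast hn.le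
      exact div_nonneg (by linarith) hn0.le
    calc ((n : ℝ) - L) / n * Real.cosh θ ≤ Real.exp (-(L / n)) * Real.exp (L / n) :=
          mul_le_mul e2 e1 (Real.cosh_pos θ).le (Real.exp_pos _).le
      _ = 1 := by
          rw [← Real.exp_add]
          simp
  refine ⟨zpoly n L * (C (Real.cosh (D * θ))⁻¹ *
    (Chebyshev.T ℝ (D : ℤ)).comp (C (Real.cosh θ / n) * X)), ?_, ?_, ?_⟩
  · refine (natDegree_mul_le).trans (Nat.add_le_add (zpoly_natDegree n L) ?_)
    refine (natDegree_C_mul_le _ _).trans ?_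
    refine natDegree_comp_le.trans ?_
    have h1 : (Chebyshev.T ℝ (D : ℤ)).natDegree = D := by
      simp
    have h2 : (C (Real.cosh θ / n) * X : ℝ[X]).natDegree ≤ 1 := (natDegree_C_mul_le _ _).trans natDegree_X_le
    rw [h1]
    calc D * (C (Real.cosh θ / n) * X : ℝ[X]).natDegree ≤ D * 1 := Nat.mul_le_mul_left _ h2
      _ = D := mul_one _
  · rw [eval_mul, zpoly_top, one_mul, eval_mul, eval_C, eval_comp, eval_mul, eval_C, eval_X,
      div_mul_cancel₀ _ hn0.ne', hT, inv_mul_cancel₀ hTpos.ne']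
  · intro i hi
    by_cases hiL : n ≤ i + L
    · rw [eval_mul, zpoly_zero hi hiL, zero_mul, abs_zero]
      positivity
    · push Not at hiL
      rw [eval_mul, abs_mul, eval_mul, eval_C, eval_comp, eval_mul, eval_C, eval_X, abs_mul,
        abs_of_pos (inv_pos.mpr hTpos)]
      have e1 : |(zpoly n L).eval (i : ℝ)| ≤ (n : ℝ) ^ L := zpoly_le hn.le hi.le
      have e2 : |(Chebyshev.T ℝ (D : ℤ)).eval (Real.cosh θ / n * i)| ≤ 1 := by
        refine Chebyshev.abs_eval_T_real_le_one _ ?_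
        have h1 : 0 ≤ Real.cosh θ / n * i := by
          have := Real.cosh_pos θ
          positivity
        rw [abs_of_nonneg h1]
        refine le_trans ?_ hscale
        have h2 : (i : ℝ) ≤ n - L := by
          have : (i : ℝ) + L ≤ n := by exact_mod_cast hiL.le
          linarith
        have h3 := (Real.cosh_pos θ).le
        calc Real.cosh θ / n * i ≤ Real.cosh θ / n * (n - L) :=
              mul_le_mul_of_nonneg_left h2 (by positivity)
          _ = ((n : ℝ) - L) / n * Real.cosh θ := by ring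
      have e3 : (n : ℝ) ^ L * (Real.cosh (D * θ))⁻¹ ≤ (1 / 2) ^ L := by
        rw [← div_eq_mul_inv, div_le_iff₀ hTpos, one_div_pow, one_div, inv_mul_eq_div,
          le_div_iff₀ (by positivity)]
        have : (n : ℝ) ^ L * 2 ^ L = (2 * n) ^ L := by rw [mul_pow]; ring
        rw [this]
        linarith
      calc |(zpoly n L).eval (i : ℝ)| * ((Real.cosh (D * θ))⁻¹ *
            |(Chebyshev.T ℝ (D : ℤ)).eval (Real.cosh θ / n * i)|)
          ≤ (n : ℝ) ^ L * ((Real.cosh (D * θ))⁻¹ * 1) := by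
            refine mul_le_mul e1 ?_ (by positivity) (by positivity)
            exact mul_le_mul_of_nonneg_left e2 (inv_pos.mpr hTpos).le
        _ ≤ (1 / 2) ^ L := by rw [mul_one]; exact e3

/-- The polynomial. -/
lemma exists_poly (n L : ℕ) : ∃ P : ℝ[X],
    P.natDegree ≤ adeg n L ∧ P.eval (n : ℝ) = 1 ∧
      ∀ i : ℕ, i < n → |P.eval (i : ℝ)| ≤ (1 / 2) ^ L := by
  rcases Nat.eq_zero_or_pos L with rfl | hL
  · refine ⟨1, by simp, by simp, fun i _ => by simp⟩
  · by_cases hn : L < n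
    · exact exists_poly_main hL hn
    · push Not at hn
      refine ⟨zpoly n n, (zpoly_natDegree n n).trans ?_, zpoly_top n n, fun i hi => ?_⟩
      · unfold adeg
        omega
      · rw [zpoly_zero hi (by omega), abs_zero]
        positivity

/-- **Approximation of AND**, in the basis of the binomial coefficients. -/
theorem and_poly (n L : ℕ) : ∃ c : ℕ → ℝ, (∀ j ≤ n, |c j| ≤ 2 ^ j) ∧
    (∑ j ∈ range (adeg n L + 1), c j * (n.choose j : ℝ) = 1) ∧
      ∀ i < n, |∑ j ∈ range (adeg n L + 1), c j * (i.choose j : ℝ)| ≤ (1 / 2) ^ L := by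
  obtain ⟨P, hdeg, hn, hi⟩ := exists_poly n L
  set c : ℕ → ℝ := fun j => (fwdDiff (1 : ℝ))^[j] P.eval 0 with hc
  have hexp : ∀ i : ℕ, ∑ j ∈ range (adeg n L + 1), c j * (i.choose j : ℝ) = P.eval (i : ℝ) := by
    intro i
    have h1 := shift_eq_sum_fwdDiff_iter (1 : ℝ) P.eval i 0
    have h2 : P.eval (i : ℝ) = ∑ k ∈ range (i + 1), (i.choose k : ℝ) * c k := by
      rw [zero_add, nsmul_eq_mul, mul_one] at h1
      rw [h1]
      refine Finset.sum_congr rfl fun k _ => ?_
      rw [nsmul_eq_mul]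
    rw [h2]
    have h3 : ∀ k, adeg n L < k → c k = 0 := by
      intro k hk
      have := Polynomial.fwdDiff_iter_eq_zero_of_degree_lt (lt_of_le_of_lt hdeg hk)
      show (fwdDiff (1 : ℝ))^[k] P.eval 0 = 0
      rw [this]
      rfl
    have h4 : ∀ k, i < k → (i.choose k : ℝ) = 0 := by
      intro k hk
      rw [Nat.choose_eq_zero_of_lt hk]
      simp
    have h5 : ∀ A : ℕ, adeg n L ≤ A → i ≤ A →
        (∑ j ∈ range (adeg n L + 1), c j * (i.choose j : ℝ) =
          ∑ j ∈ range (A + 1), c j * (i.choose j : ℝ)) ∧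
        (∑ k ∈ range (i + 1), (i.choose k : ℝ) * c k =
          ∑ j ∈ range (A + 1), c j * (i.choose j : ℝ)) := by
      intro A h6 h7
      constructor
      · refine Finset.sum_subset (fun x hx => ?_) fun x _ hx => ?_
        · rw [mem_range] at hx ⊢
          omega
        · rw [mem_range] at hx
          rw [h3 x (by omega), zero_mul]
      · have : ∑ j ∈ range (A + 1), c j * (i.choose j : ℝ) =
            ∑ j ∈ range (A + 1), (i.choose j : ℝ) * c j :=
          Finset.sum_congr rfl fun _ _ => mul_comm _ _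
        rw [this]
        refine Finset.sum_subset (fun x hx => ?_) fun x _ hx => ?_
        · rw [mem_range] at hx ⊢
          omega
        · rw [mem_range] at hx
          rw [h4 x (by omega), zero_mul]
    obtain ⟨h6, h7⟩ := h5 (adeg n L + i) (by omega) (by omega)
    rw [h6, h7]
  have hle : ∀ k ≤ n, |P.eval (k : ℝ)| ≤ 1 := by
    intro k hk
    rcases Nat.lt_or_ge k n with h | h
    · exact (hi k h).trans (pow_le_one₀ (by norm_num) (by norm_num))
    · have : k = n := le_antisymm hk h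
      rw [this, hn]
      simp
  refine ⟨c, ?_, ?_, ?_⟩
  · intro j hj
    have h1 := fwdDiff_iter_eq_sum_shift (1 : ℝ) P.eval j 0
    show |(fwdDiff (1 : ℝ))^[j] P.eval 0| ≤ 2 ^ j
    rw [h1]
    refine (Finset.abs_sum_le_sum_abs _ _).trans ?_
    have h2 : ∀ k ∈ range (j + 1), |((-1 : ℤ) ^ (j - k) * (j.choose k : ℤ)) •
        P.eval (0 + k • (1 : ℝ))| ≤ (j.choose k : ℝ) := by
      intro k hk
      rw [mem_range] at hk
      rw [zero_add, nsmul_eq_mul, mul_one, zsmul_eq_mul, abs_mul]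
      push_cast
      rw [abs_mul, abs_pow, abs_neg, abs_one, one_pow, one_mul, Nat.abs_cast]
      calc (j.choose k : ℝ) * |P.eval (k : ℝ)| ≤ (j.choose k : ℝ) * 1 :=
            mul_le_mul_of_nonneg_left (hle k (by omega)) (Nat.cast_nonneg _)
        _ = _ := mul_one _
    refine (Finset.sum_le_sum h2).trans (le_of_eq ?_)
    rw [← Nat.cast_sum, Nat.sum_range_choose]
    push_cast
    rfl
  · rw [hexp]
    exact hn
  · intro i h
    rw [hexp]
    exact hi i h

end Pool.Agent.ALM
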