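import Pool.Agent.KCL.TopCore

/-!
# Common decision trees, and thresholds of functions with small correlation
-/

set_option autoImplicit false
set_option linter.unusedSectionVars false

namespace Pool.Agent.ALM

open Finset Pool.Agent.KCL Pool.Agent.SW

/-- Functions below a common decision tree. -/
theorem tree_ind {V Y J : Type} [Fintype V] [DecidableEq V] [Fintype Y] {q r : ℕ} (hq : 2 ≤ q)
    (em : Y → V → Bool) (G : Y → ℝ) (Lo : J → Prop) (Φ : (V → Bool) → (J → Bool) → Prop) {B : ℝ}
    (hbase : ∀ f : J → (V → Bool) → Bool, (∀ j, Lo j → DTle r (f j)) →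
      ∀ H : (V → Bool) → Prop, CubeClosed q H →
        |∑ y, ind (H (em y) ∧ Φ (em y) fun j => f j (em y)) * G y| ≤ B) (T : ℕ) :
    ∀ f : J → (V → Bool) → Bool, CD Lo r T f →
      ∀ H : (V → Bool) → Prop, CubeClosed q H →
        |∑ y, ind (H (em y) ∧ Φ (em y) fun j => f j (em y)) * G y| ≤ 2 ^ T * B := by
  induction T with
  | zero =>
    intro f hf H hH
    rw [pow_zero, one_mul]
    exact hbase f hf H hH
  | succ T ih =>
    rintro f (hf | ⟨i, hi⟩) H hH
    · have h0 := hbase f hf H hH
      refine h0.trans ?_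
      have h1 : (1 : ℝ) ≤ 2 ^ (T + 1) := one_le_pow₀ (by norm_num)
      have h2 : 0 ≤ B := (abs_nonneg _).trans h0
      nlinarith
    · have h1 : ∀ b, |∑ y, ind ((H (em y) ∧ em y i = b) ∧ Φ (em y)
          fun j => f j (Function.update (em y) i b)) * G y| ≤ 2 ^ T * B := by
        intro b
        have e1 := ih (fun j x => f j (Function.update x i b)) (hi b) (fun x => H x ∧ x i = b)
          (hH.and (CubeClosed.coord hq i b))
        exact e1
      have h2 : ∀ y, ind (H (em y) ∧ Φ (em y) fun j => f j (em y)) *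
          G y = ind ((H (em y) ∧ em y i = true) ∧ Φ (em y)
          fun j => f j (Function.update (em y) i true)) * G y +
          ind ((H (em y) ∧ em y i = false) ∧ Φ (em y)
          fun j => f j (Function.update (em y) i false)) * G y := by
        intro y
        cases hy : em y i
        · have e1 : Function.update (em y) i false = em y := by rw [← hy, Function.update_eq_self]
          rw [e1]
          have e2 : ind ((H (em y) ∧ false = true) ∧ Φ (em y)
              fun j => f j (Function.update (em y) i true)) = 0 :=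
            ind_neg fun hc => Bool.noConfusion hc.1.2
          rw [e2, zero_mul, zero_add]
          congr 1
          exact ind_congr ⟨fun hc => ⟨⟨hc.1, rfl⟩, hc.2⟩, fun hc => ⟨hc.1.1, hc.2⟩⟩
        · have e1 : Function.update (em y) i true = em y := by rw [← hy, Function.update_eq_self]
          rw [e1]
          have e2 : ind ((H (em y) ∧ true = false) ∧ Φ (em y)
              fun j => f j (Function.update (em y) i false)) = 0 :=
            ind_neg fun hc => Bool.noConfusion hc.1.2
          rw [e2, zero_mul, add_zero]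
          congr 1
          exact ind_congr ⟨fun hc => ⟨⟨hc.1, rfl⟩, hc.2⟩, fun hc => ⟨hc.1.1, hc.2⟩⟩
      rw [Finset.sum_congr rfl fun y _ => h2 y, Finset.sum_add_distrib]
      refine (abs_add_le _ _).trans ?_
      have h3 := h1 true
      have h4 := h1 false
      rw [pow_succ]
      linarith

/-- Common decision trees of some of the functions. -/
lemma cd_comap {ι J J' : Type} [DecidableEq ι] {r : ℕ} (Lo : J' → Prop) (T : ℕ) :
    ∀ (F : J → (ι → Bool) → Bool) (F' : J' → (ι → Bool) → Bool),
      CD (fun _ => True) r T F → (∀ j, Lo j → ∃ i, ∀ x, F' j x = F i x) → CD Lo r T F' := by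
  induction T with
  | zero =>
    intro F F' h h' j hj
    obtain ⟨i, hi⟩ := h' j hj
    have : F' j = F i := funext hi
    rw [this]
    exact h i trivial
  | succ T ih =>
    rintro F F' (h | ⟨i, hi⟩) h'
    · left
      intro j hj
      obtain ⟨i, hi⟩ := h' j hj
      have : F' j = F i := funext hi
      rw [this]
      exact h i trivial
    · right
      refine ⟨i, fun b => ih _ _ (hi b) fun j hj => ?_⟩
      obtain ⟨i', hi'⟩ := h' j hj
      exact ⟨i', fun x => hi' _⟩

/-- **Thresholds.** -/
theorem thr_top {q r t M θ : ℕ} (hq : 1 ≤ q) (hMr : 2 ^ q * M ≤ r) (hM : 8 * (t + 1) ≤ 2 ^ M)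
    (acc : Fin t → (Fin q → Fin r → Bool) → Prop)
    (hcorr : ∀ i, |∑ y, ind (acc i y) * gip y| ≤
      (1 / 2) ^ M * Fintype.card (Fin q → Fin r → Bool)) (σ : Prop)
    (H : ∀ y : Fin q → Fin r → Bool, (θ ≤ Nat.card {i // acc i y} ↔
      (Odd (rowsAll y) ↔ σ))) : False := by
  classical
  have hNpos : (0 : ℝ) < Fintype.card (Fin q → Fin r → Bool) := by
    exact_mod_cast Fintype.card_pos
  set N : ℝ := (Fintype.card (Fin q → Fin r → Bool) : ℝ) with hN
  have hG : ∀ y : Fin q → Fin r → Bool, (Nat.card {i // acc i y} : ℝ) =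
      ∑ i : Fin t, ind (acc i y) := by
    intro y
    rw [Nat.card_eq_fintype_card, Fintype.card_subtype, ← Finset.sum_boole]
    refine Finset.sum_congr rfl fun i _ => ?_
    by_cases c : acc i y
    · rw [ind_pos c, if_pos c]
    · rw [ind_neg c, if_neg c]
  have hle : ∀ y : Fin q → Fin r → Bool, Nat.card {i // acc i y} ≤ t := by
    intro y
    rw [Nat.card_eq_fintype_card, Fintype.card_subtype]
    exact (Finset.card_le_univ _).trans (by rw [Fintype.card_fin])
  set θ' : ℕ := min θ (t + 1) with hθ
  have H' : ∀ y : Fin q → Fin r → Bool, (θ' ≤ Nat.card {i // acc i y} ↔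
      (Odd (rowsAll y) ↔ σ)) := by
    intro y
    rw [← H y, hθ]
    have := hle y
    omega
  have hgip : |∑ y : Fin q → Fin r → Bool, gip y| ≤ (1 / 2) ^ M * N := gip_small hq hMr
  -- the sign
  obtain ⟨ε, hε, hkey⟩ : ∃ ε : ℝ, |ε| = 1 ∧ ∀ y : Fin q → Fin r → Bool,
      1 / 2 ≤ ε * gip y * ((Nat.card {i // acc i y} : ℝ) - θ' + 1 / 2) := by
    have hval : ∀ y : Fin q → Fin r → Bool,
        gip y = if Odd (rowsAll y) then -1 else 1 := by
      intro y
      by_cases h : Odd (rowsAll y)
      · rw [if_pos h, gip_rows, h.neg_one_pow]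
      · rw [if_neg h]
        exact (gip_eq_one y).mpr h
    have hint : ∀ y : Fin q → Fin r → Bool,
        (θ' ≤ Nat.card {i // acc i y} →
          1 / 2 ≤ ((Nat.card {i // acc i y} : ℝ) - θ' + 1 / 2)) ∧
        (¬ θ' ≤ Nat.card {i // acc i y} →
          ((Nat.card {i // acc i y} : ℝ) - θ' + 1 / 2) ≤ -(1 / 2)) := by
      intro y
      constructor
      · intro h
        have : (θ' : ℝ) ≤ (Nat.card {i // acc i y} : ℝ) := by exact_mod_cast h
        linarith
      · intro h
        have h1 : Nat.card {i // acc i y} + 1 ≤ θ' := by omega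
        have : (Nat.card {i // acc i y} : ℝ) + 1 ≤ θ' := by exact_mod_cast h1
        linarith
    by_cases hσ : σ
    · refine ⟨-1, by norm_num, fun y => ?_⟩
      rw [hval y]
      by_cases h : Odd (rowsAll y)
      · rw [if_pos h]
        have := (hint y).1 ((H' y).mpr (by simp [h, hσ]))
        linarith
      · rw [if_neg h]
        have := (hint y).2 (fun h2 => h (((H' y).mp h2).mpr hσ))
        linarith
    · refine ⟨1, by norm_num, fun y => ?_⟩
      rw [hval y]
      by_cases h : Odd (rowsAll y)
      · rw [if_pos h]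
        have := (hint y).2 (fun h2 => hσ (((H' y).mp h2).mp h))
        linarith
      · rw [if_neg h]
        have := (hint y).1 ((H' y).mpr (by simp [h, hσ]))
        linarith
  -- summing up
  have hsum : N / 2 ≤ ∑ y : Fin q → Fin r → Bool, ε * gip y *
      ((Nat.card {i // acc i y} : ℝ) - θ' + 1 / 2) := by
    have h1 : ∑ _y : Fin q → Fin r → Bool, (1 / 2 : ℝ) = N / 2 := by
      rw [Finset.sum_const, Finset.card_univ, nsmul_eq_mul]
      ring
    rw [← h1]
    exact Finset.sum_le_sum fun y _ => hkey y
  have hexp : ∑ y : Fin q → Fin r → Bool, ε * gip y *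
      ((Nat.card {i // acc i y} : ℝ) - θ' + 1 / 2) =
      ε * ∑ i : Fin t, ∑ y, ind (acc i y) * gip y +
        ε * (1 / 2 - θ') * ∑ y : Fin q → Fin r → Bool, gip y := by
    rw [Finset.sum_comm, Finset.mul_sum, Finset.mul_sum, ← Finset.sum_add_distrib]
    refine Finset.sum_congr rfl fun y _ => ?_
    rw [hG y, ← Finset.sum_mul]
    ring
  have hb1 : |ε * ∑ i : Fin t, ∑ y, ind (acc i y) * gip y| ≤ t * ((1 / 2) ^ M * N) := by
    rw [abs_mul, hε, one_mul]
    refine (Finset.abs_sum_le_sum_abs _ _).trans
      ((Finset.sum_le_sum fun i _ => hcorr i).trans (le_of_eq ?_))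
    rw [Finset.sum_const, Finset.card_univ, Fintype.card_fin, nsmul_eq_mul]
  have hθt : (θ' : ℝ) ≤ t + 1 := by
    have : θ' ≤ t + 1 := min_le_right _ _
    exact_mod_cast this
  have hb2 : |ε * (1 / 2 - θ') * ∑ y : Fin q → Fin r → Bool, gip y| ≤
      (t + 1) * ((1 / 2) ^ M * N) := by
    rw [abs_mul, abs_mul, hε, one_mul]
    refine mul_le_mul ?_ hgip (abs_nonneg _) (by positivity)
    have h0 : (0 : ℝ) ≤ θ' := Nat.cast_nonneg _
    have h1 : (0 : ℝ) ≤ t := Nat.cast_nonneg t
    rw [abs_le]
    constructor <;> linarith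
  rw [hexp] at hsum
  have h5 : N / 2 ≤ t * ((1 / 2) ^ M * N) + (t + 1) * ((1 / 2) ^ M * N) := by
    have := (le_abs_self _).trans (abs_add_le
      (ε * ∑ i : Fin t, ∑ y, ind (acc i y) * gip y)
      (ε * (1 / 2 - θ') * ∑ y : Fin q → Fin r → Bool, gip y))
    linarith
  -- numbers
  have hMpos : (0 : ℝ) < 2 ^ M := by positivity
  have h8 : (1 / 2 : ℝ) ^ M = 1 / 2 ^ M := one_div_pow _ _
  rw [h8] at h5
  have hM' : 8 * ((t : ℝ) + 1) ≤ 2 ^ M := by exact_mod_cast hM
  have h10 : ((t : ℝ) + 1) * (1 / 2 ^ M * N) ≤ N / 8 := by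
    calc ((t : ℝ) + 1) * (1 / 2 ^ M * N) = 8 * ((t : ℝ) + 1) * (1 / 2 ^ M * N / 8) := by ring
      _ ≤ 2 ^ M * (1 / 2 ^ M * N / 8) := mul_le_mul_of_nonneg_right hM' (by positivity)
      _ = N / 8 := by field_simp
  have h11 : (t : ℝ) * (1 / 2 ^ M * N) ≤ ((t : ℝ) + 1) * (1 / 2 ^ M * N) :=
    mul_le_mul_of_nonneg_right (by linarith) (by positivity)
  linarith

/-- Closed sets have small correlation with `gip`. -/
theorem closed_gip {q r M : ℕ} (hq : 1 ≤ q) (hr : 8 ^ q * M ≤ r)
    (S : (Fin q → Fin r → Bool) → Prop) (hS : BoxClosed S) :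
    |∑ y, ind (S y) * gip y| ≤
      (q + 1) * (1 / 2) ^ M * Fintype.card (Fin q → Fin r → Bool) := by
  classical
  have h0 := closed_corr S hS ((1 / 2) ^ M) (by positivity) gip ?_ ?_
  · have h1 : ∀ y, ind (S y) * gip y = if S y then gip y else 0 := by
      intro y
      by_cases c : S y
      · rw [ind_pos c, one_mul, if_pos c]
      · rw [ind_neg c, zero_mul, if_neg c]
    rw [Finset.sum_congr rfl fun y _ => h1 y]
    exact h0
  · intro y
    rcases gip_pm y with h | h <;> rw [h] <;> norm_num
  · -- the box average of `gip`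
    set X : ℝ := (2 : ℝ) ^ q with hX
    have hX2 : 2 ≤ X := by
      calc (2 : ℝ) = 2 ^ 1 := by norm_num
        _ ≤ 2 ^ q := pow_le_pow_right₀ (by norm_num) hq
    have hX0 : 0 < X := by linarith
    have hBI : BI (fun _ : Fin q → Bool => (gip : (Fin q → Fin r → Bool) → ℝ)) =
        (1 - 2 / X) ^ r := by
      unfold BI
      have e1 : ∀ z : Fin q → Bool → Fin r → Bool, ∏ ω : Fin q → Bool, gip (vtx z ω) =
          ∏ j, (fun v : Fin q → Bool → Bool =>
            if ∀ i, v i false ≠ v i true then (-1 : ℝ) else 1) fun i c => z i c j := by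
        intro z
        rw [prod_gip z]
        refine Finset.prod_congr rfl fun j _ => ?_
        by_cases h : ∀ i, z i false j ≠ z i true j
        · rw [if_pos h]
          exact (if_pos h).symm
        · rw [if_neg h]
          exact (if_neg h).symm
      rw [Finset.sum_congr rfl fun z _ => e1 z, sum_rows_box r fun v : Fin q → Bool → Bool =>
            if ∀ i, v i false ≠ v i true then (-1 : ℝ) else 1]
      have e2 : ∑ v : Fin q → Bool → Bool, (if ∀ i, v i false ≠ v i true then (-1 : ℝ) else 1) =
          4 ^ q - 2 * 2 ^ q := by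
        have e3 : ∀ v : Fin q → Bool → Bool,
            (if ∀ i, v i false ≠ v i true then (-1 : ℝ) else 1) =
            1 - 2 * ∏ i, (if v i false ≠ v i true then (1 : ℝ) else 0) := by
          intro v
          by_cases h : ∀ i, v i false ≠ v i true
          · rw [if_pos h, Finset.prod_eq_one fun i _ => if_pos (h i)]
            norm_num
          · rw [if_neg h]
            push Not at h
            obtain ⟨i, hi⟩ := h
            rw [Finset.prod_eq_zero (Finset.mem_univ i) (if_neg (not_not.mpr hi))]
            norm_num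
        simp only [e3]
        rw [Finset.sum_sub_distrib, ← Finset.mul_sum]
        have e4 : ∑ v : Fin q → Bool → Bool,
            ∏ i, (if v i false ≠ v i true then (1 : ℝ) else 0) = 2 ^ q := by
          have e5 := Finset.prod_univ_sum (fun _ : Fin q => (univ : Finset (Bool → Bool)))
            (fun _ u => if u false ≠ u true then (1 : ℝ) else 0)
          rw [Fintype.piFinset_univ] at e5
          rw [← e5]
          have e6 : ∑ u : Bool → Bool, (if u false ≠ u true then (1 : ℝ) else 0) = 2 := by
            rw [Finset.sum_boole]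
            have : (univ.filter fun u : Bool → Bool => u false ≠ u true).card = 2 := by decide
            rw [this]
            norm_num
          rw [Finset.prod_const, e6, Finset.card_univ, Fintype.card_fin]
        rw [e4, Finset.sum_const, Finset.card_univ, Fintype.card_fun, Fintype.card_fun,
          Fintype.card_bool, Fintype.card_fin]
        norm_num
      rw [e2]
      have e3 : (Fintype.card (Fin q → Bool → Fin r → Bool) : ℝ) = ((4 : ℝ) ^ q) ^ r := by
        rw [Fintype.card_fun, Fintype.card_fun, Fintype.card_fun, Fintype.card_bool,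
          Fintype.card_fin, Fintype.card_fin]
        push_cast
        rw [← pow_mul, ← pow_mul, ← pow_mul, show (4 : ℝ) = 2 ^ 2 by norm_num, ← pow_mul]
        congr 1
        ring
      rw [e3, ← div_pow]
      congr 1
      have e4 : (4 : ℝ) ^ q = X * X := by
        rw [hX, ← mul_pow]
        norm_num
      rw [e4, ← hX]
      field_simp
    rw [hBI]
    have h5 : 0 ≤ 1 - 2 / X := by
      rw [sub_nonneg, div_le_one hX0]
      exact hX2
    rw [abs_of_nonneg (pow_nonneg h5 _), ← pow_mul, ← pow_mul]
    have h4 : (1 - 2 / X) ≤ Real.exp (-(2 / X)) := by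
      have := Real.add_one_le_exp (-(2 / X))
      linarith
    have h6 : ((M * 2 ^ q * 2 ^ q : ℕ) : ℝ) ≤ r * (2 / X) := by
      have e1 : (8 : ℝ) ^ q * M ≤ r := by exact_mod_cast hr
      have e2 : (8 : ℝ) ^ q = X * X * X := by
        rw [hX, ← mul_pow, ← mul_pow]
        norm_num
      rw [mul_div_assoc', le_div_iff₀ hX0]
      push_cast
      rw [← hX]
      rw [e2] at e1
      have e3 : (0 : ℝ) ≤ r := Nat.cast_nonneg r
      nlinarith
    calc (1 - 2 / X) ^ r ≤ Real.exp (-(2 / X)) ^ r := pow_le_pow_left₀ h5 h4 r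
      _ = Real.exp (-(r * (2 / X))) := by
          rw [← Real.exp_nat_mul]
          congr 1
          ring
      _ ≤ Real.exp (-((M * 2 ^ q * 2 ^ q : ℕ) : ℝ)) := Real.exp_le_exp.mpr (by linarith)
      _ = Real.exp (-1) ^ (M * 2 ^ q * 2 ^ q) := by
          rw [← Real.exp_nat_mul]
          congr 1
          ring
      _ ≤ (1 / 2) ^ (M * 2 ^ q * 2 ^ q) := by
          refine pow_le_pow_left₀ (Real.exp_pos _).le ?_ _
          rw [Real.exp_neg, ← one_div]
          refine one_div_le_one_div_of_le (by norm_num) ?_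
          have := Real.add_one_le_exp (1 : ℝ)
          linarith
      _ = _ := by rw [mul_assoc]

end Pool.Agent.ALM
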