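import Pool.Agent.ALM.Leaf
import Pool.Agent.ALM.Tree
import Pool.Agent.KCL.Levels
import Pool.Agent.KCL.EmbRho

/-!
# The main step
-/

set_option autoImplicit false
set_option linter.unusedSectionVars false

namespace Pool.Agent.ALM

open Finset Pool.Agent.KCL Pool.Agent.SW Pool.Agent.Helper32.QS

namespace Circ

variable {m w S N d s h k : ℕ} {V : Type} [Fintype V] {C : Circ m w V S} {H : Finset (Fin S)}

lemma top_self (v : Fin S → Bool) (x : V → Bool) :
    C.top H v x ((C.fix (C.Fb H) v).run x) = (C.fix (C.Fb H) v).run x := by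
  classical
  refine fix_run_eq C ?_ ?_
  · intro g hg
    show _ = if C.Fb H g then v g else _
    by_cases hfb : C.Fb H g
    · rw [if_pos hfb, fix_run_pos C v x hfb]
    · rw [if_neg hfb]
  · intro g hg
    exact fix_run_neg C v x fun h => hg (Or.inl h)

/-- The values of the feedback gates are correct if and only if they are the values in the run. -/
lemma phi_iff (v : Fin S → Bool) (x : V → Bool) :
    C.Phi H v x ((C.fix (C.Fb H) v).run x) ↔
      (∀ g, C.Fb H g → C.run x g = v g) ∧ C.run x C.out = true := by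
  unfold Phi
  rw [top_self]
  constructor
  · rintro ⟨h1, h2⟩
    have hrun : C.run x = (C.fix (C.Fb H) v).run x := by
      refine run_eq fun g => ?_
      by_cases hg : C.Fb H g
      · rw [fix_run_pos C v x hg]
        exact (h1 g hg).symm
      · exact fix_run_neg C v x hg
    refine ⟨fun g hg => ?_, ?_⟩
    · rw [hrun, fix_run_pos C v x hg]
    · rw [hrun]
      exact h2
  · rintro ⟨h1, h2⟩
    have hrun : (C.fix (C.Fb H) v).run x = C.run x :=
      fix_run_eq C h1 fun g _ => C.isRun_run x g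
    rw [hrun]
    refine ⟨fun g hg => ?_, h2⟩
    rw [← h1 g hg]
    exact (C.isRun_run x g).symm

/-- The values of the feedback gates, as a function on all gates. -/
noncomputable def ext (C : Circ m w V S) (H : Finset (Fin S)) (v : {g // C.Fb H g} → Bool)
    (g : Fin S) : Bool := by
  classical
  exact if h : C.Fb H g then v ⟨g, h⟩ else false

lemma ext_pos (v : {g // C.Fb H g} → Bool) {g : Fin S} (hg : C.Fb H g) :
    C.ext H v g = v ⟨g, hg⟩ := by
  unfold ext
  exact dif_pos hg

/-- Splitting according to the values of the feedback gates. -/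
lemma ind_accepts [Fintype {g // C.Fb H g}] [DecidableEq {g // C.Fb H g}] (x : V → Bool) :
    ind (C.Accepts x) = ∑ v : {g // C.Fb H g} → Bool,
      ind (C.Phi H (C.ext H v) x ((C.fix (C.Fb H) (C.ext H v)).run x)) := by
  classical
  rw [Finset.sum_eq_single fun g : {g // C.Fb H g} => C.run x g.1]
  · refine ind_congr ?_
    rw [phi_iff, accepts_iff]
    constructor
    · intro h
      refine ⟨fun g hg => ?_, h⟩
      rw [ext_pos _ hg]
    · exact fun h => h.2
  · intro v _ hv
    refine ind_neg ?_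
    rw [phi_iff]
    rintro ⟨h1, _⟩
    refine hv (funext fun g => ?_)
    rw [h1 g.1 g.2, ext_pos _ g.2]
  · intro h
    exact absurd (Finset.mem_univ _) h

open Classical in
/-- The lower gates, as a family of functions indexed by `Fin N`. -/
noncomputable def lowF (C : Circ m w V S) (H : Finset (Fin S)) (e : {g // C.Low H g} ↪ Fin N)
    (v : Fin S → Bool) (j : Fin N) (x : V → Bool) : Bool :=
  if hj : ∃ g, e g = j then (C.fix (C.Fb H) v).run x hj.choose.1 else false

open Classical in
/-- The levels of the lower gates. -/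
noncomputable def lowLev (C : Circ m w V S) (H : Finset (Fin S)) (e : {g // C.Low H g} ↪ Fin N)
    (lev : Fin S → ℕ) (j : Fin N) : ℕ :=
  if hj : ∃ g, e g = j then lev hj.choose.1 else 0

lemma lowF_e (e : {g // C.Low H g} ↪ Fin N) (v : Fin S → Bool) (g : {g // C.Low H g})
    (x : V → Bool) : C.lowF H e v (e g) x = (C.fix (C.Fb H) v).run x g.1 := by
  have hj : ∃ g', e g' = e g := ⟨g, rfl⟩
  unfold lowF
  rw [dif_pos hj]
  have h1 : hj.choose = g := e.injective hj.choose_spec
  rw [h1]

lemma lowLev_e (e : {g // C.Low H g} ↪ Fin N) (lev : Fin S → ℕ) (g : {g // C.Low H g}) :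
    C.lowLev H e lev (e g) = lev g.1 := by
  have hj : ∃ g', e g' = e g := ⟨g, rfl⟩
  unfold lowLev
  rw [dif_pos hj]
  have h1 : hj.choose = g := e.injective hj.choose_spec
  rw [h1]

/-- The lower gates satisfy the conditions of the switching lemma. -/
lemma lowF_ok [DecidableEq V] (hC : C.Bounded H N d s h k) (e : {g // C.Low H g} ↪ Fin N)
    (v : Fin S → Bool) (lev : Fin S → ℕ)
    (hlev : ∀ g, C.Low H g → ∀ g', C.Low H g' → (C.gate g).Reads (Sum.inr g') → lev g' < lev g)
    (j : Fin N) : GateOK (C.lowLev H e lev) (C.lowF H e v) j := by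
  by_cases hj : ∃ g, e g = j
  · obtain ⟨g, rfl⟩ := hj
    set R : (V → Bool) → Fin S → Bool := fun x => (C.fix (C.Fb H) v).run x with hR
    have hfire : ∀ x, C.lowF H e v (e g) x = true ↔
        (C.gate g.1).Fires (Sum.elim x (R x)) := by
      intro x
      rw [lowF_e]
      exact fix_run_neg C v x (low_not_fb g.2)
    -- the inputs
    have hin : ∀ i, (C.gate g.1).Reads i → DTle 1 (fun x => Sum.elim x (R x) i) ∨
        ∃ j, C.lowLev H e lev j < C.lowLev H e lev (e g) ∧
          (fun x => Sum.elim x (R x) i) = C.lowF H e v j := by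
      intro i hi
      rcases i with u | g'
      · left
        refine Or.inr ⟨u, fun b => ⟨b, fun x => ?_⟩⟩
        show Function.update x u b u = b
        rw [Function.update_self]
      · by_cases hfb : C.Fb H g'
        · left
          refine DTle.of_const ⟨v g', fun x => ?_⟩
          exact fix_run_pos C v x hfb
        · right
          have hlow : C.Low H g' := by
            refine ⟨fun h => hfb ⟨h, g.1, g.2.1, hi⟩, fun h => ?_⟩
            exact g.2.1 (hC.reads_test g.1 g' h hi)
          refine ⟨e ⟨g', hlow⟩, ?_, ?_⟩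
          · rw [lowLev_e, lowLev_e]
            exact hlev g.1 g.2 g' hlow hi
          · funext x
            exact (lowF_e e v ⟨g', hlow⟩ x).symm
    have hAex : ∀ Q : Set (V ⊕ Fin S), (∀ i ∈ Q, (C.gate g.1).Reads i) →
        ∀ a ∈ ((fun i x => Sum.elim x (R x) i) '' Q : Set ((V → Bool) → Bool)), DTle 1 a ∨
        ∃ j, C.lowLev H e lev j < C.lowLev H e lev (e g) ∧ a = C.lowF H e v j := by
      rintro Q hQ _ ⟨i, hi, rfl⟩
      exact hin i (hQ i hi)
    cases hgate : C.gate g.1 with
    | nor Q =>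
      refine ⟨_, hAex Q (fun i hi => by rw [hgate]; exact hi), Or.inr (Or.inr fun x => ?_)⟩
      rw [hfire, hgate]
      show (∀ i ∈ Q, _) ↔ _
      rw [Set.forall_mem_image]
    | and Q =>
      refine ⟨_, hAex Q (fun i hi => by rw [hgate]; exact hi), Or.inr (Or.inl fun x => ?_)⟩
      rw [hfire, hgate]
      show (∀ i ∈ Q, _) ↔ _
      rw [Set.forall_mem_image]
    | or Q =>
      refine ⟨_, hAex Q (fun i hi => by rw [hgate]; exact hi), Or.inl fun x => ?_⟩
      rw [hfire, hgate]
      show (∃ i ∈ Q, _) ↔ _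
      rw [Set.exists_mem_image]
    | test c A =>
      exact absurd (by rw [hgate]; trivial) g.2.2
  · refine gateOK_const _ _ _ false fun x => ?_
    unfold lowF
    rw [dif_neg hj]

/-- Below a common decision tree of the lower gates. -/
theorem circ_corr {q r E T : ℕ} [DecidableEq V] (hq2 : 2 ≤ q) (hqr : r < q) (hr : 1 ≤ r)
    (hm : m ≠ 0) (hZB : ZB (w * (m * r)) r m.primeFactorsList.length ≤ q)
    (hC : C.Bounded H N d s h k) {Y : Type} [Fintype Y] (em : Y → V → Bool) (G : Y → ℝ)
    (hG : ∀ y, |G y| ≤ 1)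
    (hB : ∀ H' : (V → Bool) → Prop, CubeClosed q H' → |∑ y, ind (H' (em y)) * G y| ≤
      (1 / 2) ^ ((need s)^[h] E) * Fintype.card Y)
    (ρ : V → Option Bool) (hρ : ∀ y, app ρ (em y) = em y) (e : {g // C.Low H g} ↪ Fin N)
    (hCD : ∀ v : {g // C.Fb H g} → Bool, CD (fun _ => True) r T
      fun j x => C.lowF H e (C.ext H v) j (app ρ x)) :
    |∑ y, ind (C.Accepts (em y)) * G y| ≤
      2 ^ k * (2 ^ T * (2 ^ (k + 1) * ((1 / 2) ^ E * Fintype.card Y))) := by
  classical
  have hv : ∀ v : {g // C.Fb H g} → Bool, |∑ y, ind (C.Phi H (C.ext H v) (em y)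
      ((C.fix (C.Fb H) (C.ext H v)).run (em y))) * G y| ≤
      2 ^ T * (2 ^ (k + 1) * ((1 / 2) ^ E * Fintype.card Y)) := by
    intro v
    have h1 := tree_ind hq2 em G (C.Low H) (C.Phi H (C.ext H v))
      (fun f hf H' hH' => leaf_corr hq2 hqr hr hm hZB hC em G hG hB (C.ext H v) f hf H' hH') T
      (fun g x => (C.fix (C.Fb H) (C.ext H v)).run (app ρ x) g)
      (cd_comap (C.Low H) T _ _ (hCD v) fun g hg => ⟨e ⟨g, hg⟩, fun x => by
        rw [lowF_e]⟩) (fun _ => True) CubeClosed.true
    have h2 : ∀ y, ind (C.Phi H (C.ext H v) (em y)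
        ((C.fix (C.Fb H) (C.ext H v)).run (em y))) =
        ind (True ∧ C.Phi H (C.ext H v) (em y) fun g =>
          (C.fix (C.Fb H) (C.ext H v)).run (app ρ (em y)) g) := by
      intro y
      refine ind_congr ?_
      rw [hρ]
      exact ⟨fun h => ⟨trivial, h⟩, fun h => h.2⟩
    simp only [h2]
    exact h1
  have h1 : ∀ y, ind (C.Accepts (em y)) * G y = ∑ v : {g // C.Fb H g} → Bool,
      ind (C.Phi H (C.ext H v) (em y) ((C.fix (C.Fb H) (C.ext H v)).run (em y))) * G y := by
    intro y
    rw [ind_accepts, Finset.sum_mul]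
  rw [Finset.sum_congr rfl fun y _ => h1 y, Finset.sum_comm]
  refine (Finset.abs_sum_le_sum_abs _ _).trans ((Finset.sum_le_sum fun v _ => hv v).trans ?_)
  rw [Finset.sum_const, Finset.card_univ, Fintype.card_fun, Fintype.card_bool, nsmul_eq_mul]
  refine mul_le_mul_of_nonneg_right ?_ (by positivity)
  have hk : Fintype.card {g // C.Fb H g} ≤ k := by
    rw [← Nat.card_eq_fintype_card]
    exact hC.card_feedback
  push_cast
  exact pow_le_pow_right₀ (by norm_num) hk

lemma Bounded.mono {d' : ℕ} (hC : C.Bounded H N d s h k) (hd : d ≤ d') :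
    C.Bounded H N d' s h k := by
  refine ⟨hC.no_test, hC.reads_test, hC.card_upper, hC.card_feedback, hC.path_upper,
    hC.card_lower, ?_⟩
  obtain ⟨lev, hlev⟩ := hC.path_lower
  exact ⟨lev, fun g hg => ⟨lt_of_lt_of_le (hlev g hg).1 hd, (hlev g hg).2⟩⟩

/-- **The main step.** -/
theorem core_thr {a b t n q r τ M E θ : ℕ} (hm : m ≠ 0) (hd : 1 ≤ d)
    (C : Fin t → Circ m w (Fin a × Fin b) S) (H : Fin t → Finset (Fin S))
    (hC : ∀ i, (C i).Bounded (H i) N d s h k)
    (hX : ∀ x : Fin a × Fin b → Bool, (θ ≤ Nat.card {i // (C i).Accepts x} ↔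
      Odd (univ.filter fun j : Fin a =>
        b ≤ 2 * (univ.filter fun c : Fin b => x (j, c) = true).card).card))
    (hn : n ≤ a) {p γ μ : ℝ} (P : MPar p γ μ r) (hN : (N : ℝ) ≤ μ ^ (r + 1)) (hq : 2 ≤ q)
    (hqr : r < q) (hZB : ZB (w * (m * r)) r m.primeFactorsList.length ≤ q)
    (hqb : 8 * (q : ℝ) ≤ p ^ d * b)
    (hsmall : (t * 2 ^ k : ℝ) * (d * (2 ^ (d * τ) * (γ * μ) ^ (τ + 1))) +
      2 * n * Real.exp (-((p ^ d) ^ 2 * b / 8)) < 1)
    (hM : 8 * (t + 1) ≤ 2 ^ M) (hE : M + (2 * k + 1 + d * τ) ≤ E)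
    (hnE : 8 ^ q * ((need s)^[h] E + Nat.clog 2 (q + 1)) ≤ n) : False := by
  classical
  -- the lower gates
  have hcl : ∀ i, Fintype.card {g // (C i).Low (H i) g} ≤ Fintype.card (Fin N) := by
    intro i
    rw [Fintype.card_fin, ← Nat.card_eq_fintype_card]
    exact (hC i).card_lower
  have he : ∀ i, ∃ _ : {g // (C i).Low (H i) g} ↪ Fin N, True := by
    intro i
    obtain ⟨e⟩ := Function.Embedding.nonempty_of_card_le (hcl i)
    exact ⟨e, trivial⟩
  choose e _ using he
  choose lev hlev using fun i => (hC i).path_lower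
  -- the restriction
  obtain ⟨ρ, hρ1, hρ2⟩ := exists_good P hN (κ := Σ i : Fin t, ({g // (C i).Fb (H i) g} → Bool))
    (fun u => (C u.1).lowLev (H u.1) (e u.1) (lev u.1))
    (fun u => (C u.1).lowF (H u.1) (e u.1) ((C u.1).ext (H u.1) u.2))
    (fun u j => lowF_ok (hC u.1) (e u.1) _ (lev u.1)
      (fun g hg g' hg' hr => (hlev u.1 g hg).2 g' hg' hr) j)
    d τ (by
      intro u j
      show (C u.1).lowLev (H u.1) (e u.1) (lev u.1) j < d
      by_cases hj : ∃ g, e u.1 g = j
      · obtain ⟨g, rfl⟩ := hj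
        rw [lowLev_e]
        exact (hlev u.1 g.1 g.2).1
      · unfold lowLev
        rw [dif_neg hj]
        omega) n b q (rowSet a b hn) (card_rowSet hn) hqb (by
      refine lt_of_le_of_lt (add_le_add_left ?_ _) hsmall
      refine mul_le_mul_of_nonneg_right ?_ (by
        have := P.pos
        positivity)
      have e1 : Fintype.card (Σ i : Fin t, ({g // (C i).Fb (H i) g} → Bool)) ≤ t * 2 ^ k := by
        rw [Fintype.card_sigma]
        calc ∑ i : Fin t, Fintype.card ({g // (C i).Fb (H i) g} → Bool)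
            ≤ ∑ _i : Fin t, 2 ^ k := by
              refine Finset.sum_le_sum fun i _ => ?_
              rw [Fintype.card_fun, Fintype.card_bool]
              refine Nat.pow_le_pow_right (by norm_num) ?_
              rw [← Nat.card_eq_fintype_card]
              exact (hC i).card_feedback
          _ = t * 2 ^ k := by
              rw [Finset.sum_const, Finset.card_univ, Fintype.card_fin, smul_eq_mul]
      exact_mod_cast e1)
  obtain ⟨own, cst, σ, hemb, hodd⟩ := exists_embedding hn ρ hρ2
  -- closed sets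
  set Q := (need s)^[h] E with hQ
  set c₀ := Nat.clog 2 (q + 1) with hc₀
  have hB : ∀ H' : (Fin a × Fin b → Bool) → Prop, CubeClosed q H' →
      |∑ y : Fin q → Fin n → Bool, ind (H' (emb own cst y)) * gip y| ≤
        (1 / 2) ^ Q * Fintype.card (Fin q → Fin n → Bool) := by
    intro H' hH'
    have h1 := closed_gip (by omega : 1 ≤ q) hnE (fun y => H' (emb own cst y))
      (boxClosed_emb own cst H' hH')
    refine h1.trans (mul_le_mul_of_nonneg_right ?_ (Nat.cast_nonneg _))
    have h2 : ((q : ℝ) + 1) ≤ 2 ^ c₀ := by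
      exact_mod_cast Nat.le_pow_clog (by norm_num) (q + 1)
    calc ((q : ℝ) + 1) * (1 / 2) ^ (Q + c₀) ≤ 2 ^ c₀ * (1 / 2) ^ (Q + c₀) :=
          mul_le_mul_of_nonneg_right h2 (by positivity)
      _ = (2 * (1 / 2)) ^ c₀ * (1 / 2) ^ Q := by rw [pow_add, mul_pow]; ring
      _ = (1 / 2) ^ Q := by norm_num
  have hgip1 : ∀ y : Fin q → Fin n → Bool, |gip y| ≤ 1 := by
    intro y
    rcases gip_pm y with h | h <;> rw [h] <;> norm_num
  have hcorr : ∀ i, |∑ y : Fin q → Fin n → Bool, ind ((C i).Accepts (emb own cst y)) * gip y| ≤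
      (1 / 2) ^ M * Fintype.card (Fin q → Fin n → Bool) := by
    intro i
    have h1 := circ_corr (r := r) (E := E) (T := d * τ) hq hqr P.r1 hm hZB (hC i)
      (emb own cst) gip hgip1 hB ρ hemb (e i) (fun v => hρ1 ⟨i, v⟩)
    refine h1.trans ?_
    have h2 : (2 : ℝ) ^ k * (2 ^ (d * τ) * (2 ^ (k + 1) * ((1 / 2) ^ E *
        Fintype.card (Fin q → Fin n → Bool)))) =
        2 ^ (2 * k + 1 + d * τ) * (1 / 2) ^ E * Fintype.card (Fin q → Fin n → Bool) := by
      have e3 : (2 : ℝ) ^ (2 * k + 1 + d * τ) = 2 ^ k * 2 ^ (k + 1) * 2 ^ (d * τ) := by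
        rw [← pow_add, ← pow_add]
        congr 1
        ring
      rw [e3]
      ring
    rw [h2]
    refine mul_le_mul_of_nonneg_right ?_ (Nat.cast_nonneg _)
    have h3 : (1 / 2 : ℝ) ^ E ≤ (1 / 2) ^ (M + (2 * k + 1 + d * τ)) :=
      pow_le_pow_of_le_one (by norm_num) (by norm_num) hE
    calc (2 : ℝ) ^ (2 * k + 1 + d * τ) * (1 / 2) ^ E
        ≤ 2 ^ (2 * k + 1 + d * τ) * (1 / 2) ^ (M + (2 * k + 1 + d * τ)) :=
          mul_le_mul_of_nonneg_left h3 (by positivity)
      _ = (2 * (1 / 2)) ^ (2 * k + 1 + d * τ) * (1 / 2) ^ M := by rw [pow_add, mul_pow]; ring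
      _ = (1 / 2) ^ M := by norm_num
  have hneed : ∀ j E', E' ≤ (need s)^[j] E' := by
    intro j
    induction j with
    | zero => exact fun E' => le_rfl
    | succ j ih =>
      intro E'
      rw [Function.iterate_succ_apply]
      refine le_trans ?_ (ih _)
      unfold need
      omega
  refine thr_top (q := q) (r := n) (t := t) (M := M) (θ := θ) (by omega) ?_ hM
    (fun i y => (C i).Accepts (emb own cst y)) hcorr σ ?_
  · refine le_trans ?_ hnE
    have h1 : M ≤ Q := by
      have := hneed h E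
      omega
    exact Nat.mul_le_mul (Nat.pow_le_pow_left (by norm_num) q) (by omega)
  · intro y
    rw [← hodd y]
    exact hX (emb own cst y)

end Circ

end Pool.Agent.ALM
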