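import Pool.Agent.ALM.AndPoly
import Pool.Agent.KCL.TreeCorr

/-!
# The recursion over the levels of the upper part
-/

set_option autoImplicit false
set_option linter.unusedSectionVars false

namespace Pool.Agent.ALM

open Finset Pool.Agent.KCL

variable {Y ι : Type} [Fintype Y] [DecidableEq ι]

/-- All literals in `C` are true. -/
def Lits (g : ι → Y → Bool) (C : Finset (ι × Bool)) (y : Y) : Prop := ∀ p ∈ C, g p.1 y = p.2

/-- The correlation of `G` with the conjunctions of a closed set and of literals of level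
smaller than `l` is at most `B`. -/
def Bd (𝒮 : (Y → Prop) → Prop) (G : Y → ℝ) (g : ι → Y → Bool) (lev : ι → ℕ) (l : ℕ) (B : ℝ) :
    Prop :=
  ∀ S, 𝒮 S → ∀ C : Finset (ι × Bool), (∀ p ∈ C, lev p.1 < l) →
    |∑ y, ind (S y ∧ Lits g C y) * G y| ≤ B

/-- For one sign, the gate `u` is a conjunction of a closed set and of literals of smaller
level. -/
def HasForm (𝒮 : (Y → Prop) → Prop) (g : ι → Y → Bool) (lev : ι → ℕ) (u : ι) : Prop :=
  ∃ (σ : Bool) (P : Y → Prop) (T : Finset (ι × Bool)), 𝒮 P ∧ (∀ p ∈ T, lev p.1 < lev u) ∧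
    ∀ y, g u y = σ ↔ P y ∧ Lits g T y

variable {𝒮 : (Y → Prop) → Prop} {G : Y → ℝ} {g : ι → Y → Bool} {lev : ι → ℕ} {l : ℕ} {B : ℝ}

lemma lits_insert (p : ι × Bool) (T : Finset (ι × Bool)) (y : Y) :
    Lits g (insert p T) y ↔ g p.1 y = p.2 ∧ Lits g T y := by
  unfold Lits
  rw [Finset.forall_mem_insert]

lemma lits_union (C T : Finset (ι × Bool)) (y : Y) :
    Lits g (C ∪ T) y ↔ Lits g C y ∧ Lits g T y := by
  unfold Lits
  constructor
  · exact fun h => ⟨fun p hp => h p (Finset.mem_union_left _ hp),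
      fun p hp => h p (Finset.mem_union_right _ hp)⟩
  · rintro ⟨h1, h2⟩ p hp
    rcases Finset.mem_union.mp hp with h | h
    · exact h1 p h
    · exact h2 p h

lemma lits_empty (y : Y) : Lits g ∅ y := fun p hp => absurd hp (Finset.notMem_empty p)

lemma Bd.nonneg (htrue : 𝒮 fun _ => True) (h : Bd 𝒮 G g lev l B) : 0 ≤ B :=
  (abs_nonneg _).trans (h _ htrue ∅ fun p hp => absurd hp (Finset.notMem_empty p))

/-- Conjunctions of few literals of level at most `l`. -/
lemma mono_bd (htrue : 𝒮 fun _ => True)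
    (hand : ∀ S T, 𝒮 S → 𝒮 T → 𝒮 fun y => S y ∧ T y)
    (hform : ∀ u, HasForm 𝒮 g lev u) (h : Bd 𝒮 G g lev l B) (T : Finset (ι × Bool)) :
    (∀ p ∈ T, lev p.1 < l + 1) → ∀ S, 𝒮 S → ∀ C : Finset (ι × Bool), (∀ p ∈ C, lev p.1 < l) →
      |∑ y, ind (S y ∧ Lits g C y ∧ Lits g T y) * G y| ≤ 2 ^ T.card * B := by
  have hB := h.nonneg htrue
  induction T using Finset.induction_on with
  | empty =>
    intro _ S hS C hC
    have h1 : ∀ y, ind (S y ∧ Lits g C y ∧ Lits g ∅ y) = ind (S y ∧ Lits g C y) := fun y =>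
      ind_congr ⟨fun h => ⟨h.1, h.2.1⟩, fun h => ⟨h.1, h.2, lits_empty y⟩⟩
    simp only [h1, Finset.card_empty, pow_zero, one_mul]
    exact h S hS C hC
  | insert p T hp ih =>
    intro hT S hS C hC
    obtain ⟨σ, P, T', hP, hT', hform'⟩ := hform p.1
    have hTl : ∀ p ∈ T, lev p.1 < l + 1 := fun q hq => hT q (Finset.mem_insert_of_mem hq)
    have hpl : lev p.1 < l + 1 := hT p (Finset.mem_insert_self _ _)
    have key := ih hTl (fun y => S y ∧ P y) (hand S P hS hP) (C ∪ T') (by
      intro q hq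
      rcases Finset.mem_union.mp hq with hq | hq
      · exact hC q hq
      · have := hT' q hq
        omega)
    rw [Finset.card_insert_of_notMem hp, pow_succ]
    have h2 : 0 ≤ (2 : ℝ) ^ T.card * B := by positivity
    by_cases hσ : p.2 = σ
    · have h1 : ∀ y, ind (S y ∧ Lits g C y ∧ Lits g (insert p T) y) =
          ind ((S y ∧ P y) ∧ Lits g (C ∪ T') y ∧ Lits g T y) := by
        intro y
        refine ind_congr ?_
        rw [lits_insert, lits_union, hσ, hform' y]
        tauto
      simp only [h1]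
      linarith
    · have h1 : ∀ y, ind (S y ∧ Lits g C y ∧ Lits g (insert p T) y) * G y =
          ind (S y ∧ Lits g C y ∧ Lits g T y) * G y -
          ind ((S y ∧ P y) ∧ Lits g (C ∪ T') y ∧ Lits g T y) * G y := by
        intro y
        have e1 : ind (S y ∧ Lits g C y ∧ Lits g T y) =
            ind (S y ∧ Lits g C y ∧ Lits g (insert p T) y) +
            ind ((S y ∧ P y) ∧ Lits g (C ∪ T') y ∧ Lits g T y) := by
          have e2 : g p.1 y = p.2 ↔ ¬ g p.1 y = σ := by
            revert hσ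
            cases p.2 <;> cases σ <;> cases g p.1 y <;> simp
          by_cases hP' : P y ∧ Lits g T' y
          · have e3 : g p.1 y = σ := (hform' y).mpr hP'
            have e4 : ¬ (S y ∧ Lits g C y ∧ Lits g (insert p T) y) := by
              rw [lits_insert, e2]
              tauto
            rw [ind_neg e4, zero_add]
            refine ind_congr ?_
            rw [lits_union]
            tauto
          · have e3 : ¬ g p.1 y = σ := fun h => hP' ((hform' y).mp h)
            have e4 : ¬ ((S y ∧ P y) ∧ Lits g (C ∪ T') y ∧ Lits g T y) := by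
              rw [lits_union]
              tauto
            rw [ind_neg e4, add_zero]
            refine ind_congr ?_
            rw [lits_insert, e2]
            tauto
        rw [e1]
        ring
      rw [Finset.sum_congr rfl fun y _ => h1 y, Finset.sum_sub_distrib]
      refine (abs_sub _ _).trans ?_
      have h3 := ih hTl S hS C hC
      linarith

/-- A geometric sum. -/
lemma sum_pow_le {x : ℝ} (hx : 0 ≤ x) (A : ℕ) : ∑ j ∈ range (A + 1), x ^ j ≤ (x + 1) ^ A := by
  induction A with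
  | zero => simp
  | succ A ih =>
    rw [Finset.sum_range_succ]
    have h1 : x ^ A ≤ (x + 1) ^ A := pow_le_pow_left₀ hx (by linarith) A
    have h2 : x ^ (A + 1) ≤ (x + 1) ^ A * x := by
      rw [pow_succ]
      exact mul_le_mul_of_nonneg_right h1 hx
    have h3 : (x + 1) ^ (A + 1) = (x + 1) ^ A + (x + 1) ^ A * x := by rw [pow_succ]; ring
    linarith

/-- **One level.** -/
theorem bd_step [Fintype ι] (htrue : 𝒮 fun _ => True)
    (hand : ∀ S T, 𝒮 S → 𝒮 T → 𝒮 fun y => S y ∧ T y)
    (hform : ∀ u, HasForm 𝒮 g lev u) (hG : ∀ y, |G y| ≤ 1) (h : Bd 𝒮 G g lev l B) (L : ℕ) :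
    Bd 𝒮 G g lev (l + 1) ((1 / 2) ^ L * Fintype.card Y +
      (8 * Fintype.card ι + 1) ^ adeg (2 * Fintype.card ι) L * B) := by
  classical
  have hB := h.nonneg htrue
  intro S hS C hC
  set n := C.card with hn
  have hn2 : n ≤ 2 * Fintype.card ι := by
    rw [hn]
    refine (Finset.card_le_univ C).trans (le_of_eq ?_)
    rw [Fintype.card_prod, Fintype.card_bool, mul_comm]
  obtain ⟨c, hc, hctop, hclow⟩ := and_poly n L
  set A := adeg n L with hA
  -- the number of true literals
  let cnt : Y → ℕ := fun y => (C.filter fun p => g p.1 y = p.2).card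
  have hcnt : ∀ y, cnt y ≤ n := fun y => Finset.card_filter_le _ _
  have hcnt2 : ∀ y, cnt y = n ↔ Lits g C y := by
    intro y
    show (C.filter fun p => g p.1 y = p.2).card = C.card ↔ _
    rw [Finset.card_filter_eq_iff]
    rfl
  let err : Y → ℝ := fun y => ind (Lits g C y) - ∑ j ∈ range (A + 1), c j * ((cnt y).choose j : ℝ)
  have herr : ∀ y, |err y| ≤ (1 / 2) ^ L := by
    intro y
    show |ind (Lits g C y) - ∑ j ∈ range (A + 1), c j * ((cnt y).choose j : ℝ)| ≤ _
    by_cases hy : cnt y = n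
    · rw [hy, hctop, ind_pos ((hcnt2 y).mp hy), sub_self, abs_zero]
      positivity
    · rw [ind_neg fun h => hy ((hcnt2 y).mpr h), zero_sub, abs_neg]
      exact hclow _ (lt_of_le_of_ne (hcnt y) hy)
  have hchoose : ∀ y j, ((cnt y).choose j : ℝ) = ∑ T ∈ C.powersetCard j, ind (Lits g T y) := by
    intro y j
    show (((C.filter fun p => g p.1 y = p.2).card).choose j : ℝ) = _
    rw [← Finset.card_powersetCard]
    have e1 : (C.filter fun p => g p.1 y = p.2).powersetCard j =
        (C.powersetCard j).filter fun T => Lits g T y := by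
      ext T
      rw [Finset.mem_powersetCard, Finset.mem_filter, Finset.mem_powersetCard]
      constructor
      · rintro ⟨h1, h2⟩
        exact ⟨⟨fun p hp => (Finset.mem_filter.mp (h1 hp)).1, h2⟩,
          fun p hp => (Finset.mem_filter.mp (h1 hp)).2⟩
      · rintro ⟨⟨h1, h2⟩, h3⟩
        exact ⟨fun p hp => Finset.mem_filter.mpr ⟨h1 hp, h3 p hp⟩, h2⟩
    rw [e1, ← Finset.sum_boole]
    refine Finset.sum_congr rfl fun T _ => ?_
    by_cases hT : Lits g T y
    · rw [if_pos hT, ind_pos hT]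
    · rw [if_neg hT, ind_neg hT]
  -- the expansion
  have hexp : ∑ y, ind (S y ∧ Lits g C y) * G y =
      (∑ j ∈ range (A + 1), c j * ∑ T ∈ C.powersetCard j,
        ∑ y, ind (S y ∧ Lits g ∅ y ∧ Lits g T y) * G y) + ∑ y, ind (S y) * err y * G y := by
    have e1 : ∀ y, ind (S y ∧ Lits g C y) * G y =
        (∑ j ∈ range (A + 1), c j * ∑ T ∈ C.powersetCard j,
          ind (S y ∧ Lits g ∅ y ∧ Lits g T y) * G y) + ind (S y) * err y * G y := by
      intro y
      have e2 : ind (Lits g C y) = (∑ j ∈ range (A + 1), c j * ((cnt y).choose j : ℝ)) + err y := by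
        show _ = _ + (ind (Lits g C y) - _)
        ring
      have e3 : ∀ T, ind (S y ∧ Lits g ∅ y ∧ Lits g T y) = ind (S y) * ind (Lits g T y) := by
        intro T
        rw [← ind_and]
        exact ind_congr ⟨fun h => ⟨h.1, h.2.2⟩, fun h => ⟨h.1, lits_empty y, h.2⟩⟩
      rw [ind_and, e2]
      simp only [e3, hchoose]
      rw [mul_add, add_mul, Finset.mul_sum, Finset.sum_mul]
      congr 1
      refine Finset.sum_congr rfl fun j _ => ?_
      rw [Finset.mul_sum, Finset.mul_sum, Finset.mul_sum, Finset.sum_mul]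
      refine Finset.sum_congr rfl fun T _ => ?_
      ring
    rw [Finset.sum_congr rfl fun y _ => e1 y, Finset.sum_add_distrib]
    congr 1
    rw [Finset.sum_comm]
    refine Finset.sum_congr rfl fun j _ => ?_
    rw [← Finset.mul_sum, Finset.sum_comm]
  rw [hexp]
  refine (abs_add_le _ _).trans ?_
  rw [add_comm]
  refine add_le_add ?_ ?_
  · refine (Finset.abs_sum_le_sum_abs _ _).trans ?_
    calc ∑ y, |ind (S y) * err y * G y| ≤ ∑ _y : Y, (1 / 2 : ℝ) ^ L := by
          refine Finset.sum_le_sum fun y _ => ?_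
          rw [abs_mul, abs_mul, abs_of_nonneg (ind_nonneg _)]
          have h1 : ind (S y) * |err y| ≤ 1 * (1 / 2) ^ L :=
            mul_le_mul (ind_le_one _) (herr y) (abs_nonneg _) (by norm_num)
          calc ind (S y) * |err y| * |G y| ≤ (1 * (1 / 2) ^ L) * 1 :=
                mul_le_mul h1 (hG y) (abs_nonneg _) (by positivity)
            _ = (1 / 2) ^ L := by ring
      _ = (1 / 2) ^ L * Fintype.card Y := by
          rw [Finset.sum_const, Finset.card_univ, nsmul_eq_mul, mul_comm]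
  · have hmono : ∀ j, ∀ T ∈ C.powersetCard j,
        |∑ y, ind (S y ∧ Lits g ∅ y ∧ Lits g T y) * G y| ≤ 2 ^ j * B := by
      intro j T hT
      rw [Finset.mem_powersetCard] at hT
      have h1 := mono_bd htrue hand hform h T (fun p hp => hC p (hT.1 hp)) S hS ∅
        fun p hp => absurd hp (Finset.notMem_empty p)
      rw [hT.2] at h1
      exact h1
    have hj : ∀ j ∈ range (A + 1), |c j * ∑ T ∈ C.powersetCard j,
        ∑ y, ind (S y ∧ Lits g ∅ y ∧ Lits g T y) * G y| ≤ (4 * (n : ℝ)) ^ j * B := by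
      intro j _
      rw [abs_mul]
      by_cases hjn : j ≤ n
      · have h1 : |∑ T ∈ C.powersetCard j, ∑ y, ind (S y ∧ Lits g ∅ y ∧ Lits g T y) * G y| ≤
            (n : ℝ) ^ j * (2 ^ j * B) := by
          refine (Finset.abs_sum_le_sum_abs _ _).trans ((Finset.sum_le_sum (hmono j)).trans ?_)
          rw [Finset.sum_const, Finset.card_powersetCard, nsmul_eq_mul]
          refine mul_le_mul_of_nonneg_right ?_ (by positivity)
          exact_mod_cast Nat.choose_le_pow _ _
        calc |c j| * |∑ T ∈ C.powersetCard j, ∑ y, ind (S y ∧ Lits g ∅ y ∧ Lits g T y) * G y|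
            ≤ 2 ^ j * ((n : ℝ) ^ j * (2 ^ j * B)) :=
              mul_le_mul (hc j hjn) h1 (abs_nonneg _) (by positivity)
          _ = (4 * (n : ℝ)) ^ j * B := by
              rw [mul_pow, show (4 : ℝ) = 2 * 2 by norm_num, mul_pow]
              ring
      · have h1 : C.powersetCard j = ∅ := Finset.powersetCard_eq_empty.mpr (by omega)
        rw [h1, Finset.sum_empty, abs_zero, mul_zero]
        positivity
    refine (Finset.abs_sum_le_sum_abs _ _).trans ((Finset.sum_le_sum hj).trans ?_)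
    rw [← Finset.sum_mul]
    refine mul_le_mul_of_nonneg_right ?_ hB
    refine (sum_pow_le (by positivity) A).trans ?_
    have e1 : (4 * (n : ℝ) + 1) ≤ 8 * Fintype.card ι + 1 := by
      have : (n : ℝ) ≤ 2 * Fintype.card ι := by exact_mod_cast hn2
      linarith
    calc (4 * (n : ℝ) + 1) ^ A ≤ (8 * (Fintype.card ι : ℝ) + 1) ^ A :=
          pow_le_pow_left₀ (by positivity) e1 A
      _ ≤ (8 * (Fintype.card ι : ℝ) + 1) ^ adeg (2 * Fintype.card ι) L :=
          pow_le_pow_right₀ (by
            have : (0 : ℝ) ≤ Fintype.card ι := Nat.cast_nonneg _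
            linarith) (adeg_mono hn2 L)

/-- The number of bits needed at the level below. -/
def need (s E : ℕ) : ℕ := E + 1 + Nat.clog 2 (8 * s + 1) * adeg (2 * s) (E + 1)

/-- One level, with powers of `2`. -/
lemma bd_need [Fintype ι] (htrue : 𝒮 fun _ => True)
    (hand : ∀ S T, 𝒮 S → 𝒮 T → 𝒮 fun y => S y ∧ T y)
    (hform : ∀ u, HasForm 𝒮 g lev u) (hG : ∀ y, |G y| ≤ 1) {s E : ℕ} (hs : Fintype.card ι ≤ s)
    (h : Bd 𝒮 G g lev l ((1 / 2) ^ need s E * Fintype.card Y)) :
    Bd 𝒮 G g lev (l + 1) ((1 / 2) ^ E * Fintype.card Y) := by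
  have h1 := bd_step htrue hand hform hG h (E + 1)
  intro S hS C hC
  refine (h1 S hS C hC).trans ?_
  have hN : (0 : ℝ) ≤ Fintype.card Y := Nat.cast_nonneg _
  set D := adeg (2 * s) (E + 1) with hD
  have e1 : (8 * (Fintype.card ι : ℝ) + 1) ^ adeg (2 * Fintype.card ι) (E + 1) ≤
      2 ^ (Nat.clog 2 (8 * s + 1) * D) := by
    have e2 : (8 * (Fintype.card ι : ℝ) + 1) ≤ 2 ^ Nat.clog 2 (8 * s + 1) := by
      have e3 : 8 * Fintype.card ι + 1 ≤ 2 ^ Nat.clog 2 (8 * s + 1) :=
        (by omega : 8 * Fintype.card ι + 1 ≤ 8 * s + 1).trans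
          (Nat.le_pow_clog (by norm_num) _)
      exact_mod_cast e3
    calc (8 * (Fintype.card ι : ℝ) + 1) ^ adeg (2 * Fintype.card ι) (E + 1)
        ≤ (8 * (Fintype.card ι : ℝ) + 1) ^ D :=
          pow_le_pow_right₀ (by
            have : (0 : ℝ) ≤ Fintype.card ι := Nat.cast_nonneg _
            linarith) (adeg_mono (by omega) _)
      _ ≤ (2 ^ Nat.clog 2 (8 * s + 1)) ^ D := pow_le_pow_left₀ (by positivity) e2 D
      _ = 2 ^ (Nat.clog 2 (8 * s + 1) * D) := by rw [← pow_mul]
  have e2 : (8 * (Fintype.card ι : ℝ) + 1) ^ adeg (2 * Fintype.card ι) (E + 1) *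
      ((1 / 2) ^ need s E * Fintype.card Y) ≤ (1 / 2) ^ (E + 1) * Fintype.card Y := by
    calc (8 * (Fintype.card ι : ℝ) + 1) ^ adeg (2 * Fintype.card ι) (E + 1) *
        ((1 / 2) ^ need s E * Fintype.card Y)
        ≤ 2 ^ (Nat.clog 2 (8 * s + 1) * D) * ((1 / 2) ^ need s E * Fintype.card Y) :=
          mul_le_mul_of_nonneg_right e1 (by positivity)
      _ = (2 * (1 / 2)) ^ (Nat.clog 2 (8 * s + 1) * D) * (1 / 2) ^ (E + 1) * Fintype.card Y := by
          rw [need, pow_add (1 / 2 : ℝ) (E + 1), mul_pow]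
          ring
      _ = (1 / 2) ^ (E + 1) * Fintype.card Y := by norm_num
  have e3 : (1 / 2 : ℝ) ^ E = (1 / 2) ^ (E + 1) + (1 / 2) ^ (E + 1) := by
    rw [pow_succ]
    ring
  rw [e3, add_mul]
  linarith

/-- All levels. -/
theorem bd_iter [Fintype ι] (htrue : 𝒮 fun _ => True)
    (hand : ∀ S T, 𝒮 S → 𝒮 T → 𝒮 fun y => S y ∧ T y)
    (hform : ∀ u, HasForm 𝒮 g lev u) (hG : ∀ y, |G y| ≤ 1) {s : ℕ} (hs : Fintype.card ι ≤ s)
    (h : ℕ) : ∀ E l : ℕ, Bd 𝒮 G g lev l ((1 / 2) ^ ((need s)^[h] E) * Fintype.card Y) →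
    Bd 𝒮 G g lev (l + h) ((1 / 2) ^ E * Fintype.card Y) := by
  induction h with
  | zero => exact fun E l h => h
  | succ h ih =>
    intro E l h1
    rw [Function.iterate_succ_apply] at h1
    exact bd_need htrue hand hform hG hs (ih _ l h1)

end Pool.Agent.ALM
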