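import Pool.Agent.ALM.Numbers

/-!
# The main theorem
-/

set_option autoImplicit false

namespace Pool.Agent.ALM

open Finset Pool.Agent.KCL Pool.Agent.SW Pool.Agent.Helper32.QS

/-- The number of feedback gates is at most `s`. -/
lemma Circ.Bounded.min_feedback {m w S N d s h k : ℕ} {V : Type} [Fintype V]
    {C : Circ m w V S} {H : Finset (Fin S)} (hC : C.Bounded H N d s h k) :
    C.Bounded H N d s h (min k s) := by
  classical
  refine ⟨hC.no_test, hC.reads_test, hC.card_upper, le_min hC.card_feedback ?_, hC.path_upper,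
    hC.card_lower, hC.path_lower⟩
  refine le_trans ?_ hC.card_upper
  rw [Nat.card_eq_fintype_card, Fintype.card_subtype]
  refine Finset.card_le_card fun g hg => ?_
  exact (Finset.mem_filter.mp hg).2.1

/-- **The main theorem.** -/
theorem main (m w d h c : ℕ) (hm : 2 ≤ m) : ∃ K : ℕ, ∀ a b s k t S θ : ℕ, a ≤ b ^ c →
    ∀ (C : Fin t → Circ m w (Fin a × Fin b) S) (H : Fin t → Finset (Fin S)),
      (∀ i, (C i).Bounded (H i) (b ^ c) d s h k) →
      (∀ x : Fin a × Fin b → Bool, θ ≤ Nat.card {i // (C i).Accepts x} ↔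
        Odd (univ.filter fun j : Fin a =>
          b ≤ 2 * (univ.filter fun l : Fin b => x (j, l) = true).card).card) →
      (a : ℝ) ^ 2 ^ h ≤ (K * Real.log (s + t + 2)) ^ K * (s + 1) ^ (2 ^ h - 1) * (k + 1) := by
  classical
  obtain ⟨u, hu⟩ : ∃ z, z = m.primeFactorsList.length := ⟨_, rfl⟩
  obtain ⟨d', hd'⟩ : ∃ z, z = d + 1 := ⟨_, rfl⟩
  obtain ⟨r, hr⟩ : ∃ z, z = 16 * d' * (c + 1) := ⟨_, rfl⟩
  obtain ⟨D, hD⟩ : ∃ z, z = d' * (c + 1) := ⟨_, rfl⟩
  obtain ⟨q, hq⟩ : ∃ z, z = ZB (w * (m * r)) r u + r + 2 := ⟨_, rfl⟩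
  obtain ⟨B, hB⟩ : ∃ z, z = 32 * r + 2 ^ (d' + 1) + 200 * D + 8 * q := ⟨_, rfl⟩
  obtain ⟨hB1, hB2, hB3, hB4⟩ : 32 * r ≤ B ∧ 2 ^ (d' + 1) ≤ B ∧ 200 * D ≤ B ∧ 8 * q ≤ B := by
    clear hq hD hr
    generalize 2 ^ (d' + 1) = P at hB ⊢
    omega
  clear hB
  obtain ⟨c₀, hc₀⟩ : ∃ z, z = Nat.clog 2 (q + 1) := ⟨_, rfl⟩
  obtain ⟨K₁, hK₁⟩ := need_iter h
  obtain ⟨c₁, hc₁⟩ : ∃ z, z = (8 ^ q * (c₀ + 1)) ^ 2 ^ h := ⟨_, rfl⟩
  obtain ⟨c₂, hc₂⟩ : ∃ z, z = ((B + 1) ^ (8 * d' * c)) ^ 2 ^ h := ⟨_, rfl⟩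
  obtain ⟨c₃, hc₃⟩ : ∃ z, z = 2 * d' + 8 := ⟨_, rfl⟩
  obtain ⟨K, hK⟩ : ∃ z, z = K₁ + 1 + c₁ + c₂ + 18 * c₃ + 4 := ⟨_, rfl⟩
  refine ⟨K, ?_⟩
  intro a b s k t S θ hab C H hC hX
  have hd1 : 1 ≤ d' := by omega
  have hdD : d' ≤ D := by
    rw [hD]
    exact Nat.le_mul_of_pos_right _ (by omega)
  have hr1 : 1 ≤ r := by
    rw [hr]
    exact Nat.mul_pos (by omega) (by omega)
  -- the logarithm
  obtain ⟨Lg, hLg⟩ : ∃ z : ℝ, z = Real.log ((s : ℝ) + t + 2) := ⟨_, rfl⟩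
  have hs0 : (0 : ℝ) ≤ s := Nat.cast_nonneg _
  have ht0 : (0 : ℝ) ≤ t := Nat.cast_nonneg _
  have hk0 : (0 : ℝ) ≤ k := Nat.cast_nonneg _
  have hLg2 : Real.log 2 ≤ Lg := by
    rw [hLg]
    exact Real.log_le_log (by norm_num) (by linarith)
  have hlog2 := Real.log_two_gt_d9
  have hKr : (K : ℝ) = K₁ + 1 + c₁ + c₂ + 18 * c₃ + 4 := by
    rw [hK]
    push_cast
    ring
  have hKL2 : (2 : ℝ) ≤ K * Lg := by
    have h1 : (4 : ℝ) ≤ K := by
      have : 4 ≤ K := by omega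
      exact_mod_cast this
    nlinarith
  have hKL1 : (1 : ℝ) ≤ K * Lg := by linarith
  have hpow : ∀ j : ℕ, (j : ℝ) ≤ (K * Lg) ^ j := by
    intro j
    calc (j : ℝ) ≤ 2 ^ j := by exact_mod_cast Nat.lt_two_pow_self.le
      _ ≤ (K * Lg) ^ j := pow_le_pow_left₀ (by norm_num) hKL2 j
  have hs1 : (1 : ℝ) ≤ (s + 1) ^ (2 ^ h - 1) := one_le_pow₀ (by linarith)
  rw [← hLg]
  -- the root of `b`
  obtain ⟨A, hA1, hA2⟩ := exists_root (8 * d') b (by omega)
  by_cases hAB : A < B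
  · -- `b` is small
    have h1 : a ≤ (B + 1) ^ (8 * d' * c) := by
      calc a ≤ b ^ c := hab
        _ ≤ ((A + 1) ^ (8 * d')) ^ c := Nat.pow_le_pow_left hA2.le c
        _ = (A + 1) ^ (8 * d' * c) := by rw [← pow_mul]
        _ ≤ (B + 1) ^ (8 * d' * c) := Nat.pow_le_pow_left (by omega) _
    have h2 : (a : ℝ) ^ 2 ^ h ≤ c₂ := by
      rw [hc₂]
      exact_mod_cast Nat.pow_le_pow_left h1 (2 ^ h)
    have h3 : (c₂ : ℝ) ≤ (K * Lg) ^ K :=
      (hpow c₂).trans (pow_le_pow_right₀ hKL1 (by omega))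
    calc (a : ℝ) ^ 2 ^ h ≤ (K * Lg) ^ K := h2.trans h3
      _ = (K * Lg) ^ K * 1 * 1 := by ring
      _ ≤ (K * Lg) ^ K * (s + 1) ^ (2 ^ h - 1) * (k + 1) := by
          have h4 : (0 : ℝ) ≤ (K * Lg) ^ K := by positivity
          refine mul_le_mul (mul_le_mul_of_nonneg_left hs1 h4) (by linarith) (by norm_num) ?_
          positivity
  · push Not at hAB
    obtain ⟨l, hl⟩ : ∃ z, z = Nat.clog 2 (s + t + 2) := ⟨_, rfl⟩
    have hl1 : 1 ≤ l := by
      rw [hl]
      exact Nat.clog_pos (by norm_num) (by omega)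
    obtain ⟨k', hk'⟩ : ∃ z, z = min k s := ⟨_, rfl⟩
    obtain ⟨τ, hτ⟩ : ∃ z, z = k' + Nat.clog 2 t := ⟨_, rfl⟩
    obtain ⟨M, hM⟩ : ∃ z, z = Nat.clog 2 (t + 1) + 3 := ⟨_, rfl⟩
    obtain ⟨E, hE⟩ : ∃ z, z = M + (2 * k' + 1 + d' * τ) := ⟨_, rfl⟩
    have hclt : Nat.clog 2 t ≤ l := by
      rw [hl]
      exact Nat.clog_mono_right 2 (by omega)
    have hclt1 : Nat.clog 2 (t + 1) ≤ l := by
      rw [hl]
      exact Nat.clog_mono_right 2 (by omega)
    -- the size of `E`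
    have hE1 : E + 1 ≤ c₃ * l * (k' + 1) := by
      have e1 : d' * τ ≤ d' * (l * (k' + 1)) := by
        refine Nat.mul_le_mul_left _ ?_
        rw [hτ]
        nlinarith
      have e2 : c₃ * l * (k' + 1) = 2 * (d' * (l * (k' + 1))) + 8 * (l * (k' + 1)) := by
        rw [hc₃]
        ring
      have e3 : k' + l ≤ l * (k' + 1) := by nlinarith
      omega
    -- the combinatorial bound
    have hmain : a < 8 ^ q * ((need s)^[h] E + c₀) := by
      by_contra hcon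
      push Not at hcon
      have hD1 : 1 ≤ D := hd1.trans hdD
      have hA3 : 200 * D ≤ A := hB3.trans hAB
      have hA0 : 200 ≤ A := by
        clear hD
        omega
      have hAr : (1 : ℝ) ≤ A := by
        have : 1 ≤ A := by omega
        exact_mod_cast this
      have hbA : b ≤ A ^ (16 * d') := by
        have e4 : (A + 1) ^ (8 * d') ≤ A ^ (16 * d') := by
          calc (A + 1) ^ (8 * d') ≤ (A ^ 2) ^ (8 * d') := by
                refine Nat.pow_le_pow_left ?_ _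
                nlinarith
            _ = A ^ (16 * d') := by
                rw [← pow_mul]
                congr 1
                ring
        omega
      have hbc : b ^ c ≤ A ^ (16 * d' * c) := by
        calc b ^ c ≤ (A ^ (16 * d')) ^ c := Nat.pow_le_pow_left hbA c
          _ = A ^ (16 * d' * c) := by rw [← pow_mul]
      have hNA : ((b ^ c : ℕ) : ℝ) ≤ (A : ℝ) ^ (r + 1) := by
        have h1 : b ^ c ≤ A ^ (r + 1) := by
          refine hbc.trans (Nat.pow_le_pow_right (by omega) ?_)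
          have : 16 * d' * c ≤ r := by
            rw [hr]
            exact Nat.mul_le_mul_left _ (by omega)
          omega
        exact_mod_cast h1
      have haA : a ≤ A ^ (16 * D) := by
        refine (hab.trans hbc).trans (Nat.pow_le_pow_right (by omega) ?_)
        rw [hD]
        calc 16 * d' * c ≤ 16 * d' * (c + 1) := Nat.mul_le_mul_left _ (by omega)
          _ = 16 * (d' * (c + 1)) := by ring
      have hqb : 8 * (q : ℝ) ≤ (1 / (32 * r * (A : ℝ) ^ 2)) ^ d' * b := by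
        have e1 : (8 * q : ℝ) ≤ A := by
          have : 8 * q ≤ A := hB4.trans hAB
          exact_mod_cast this
        have e2 : ((A : ℝ) ^ (8 * d')) ≤ b := by exact_mod_cast hA1
        have e3 : (32 : ℝ) * r ≤ A := by
          have : 32 * r ≤ A := hB1.trans hAB
          exact_mod_cast this
        have hApos : (0 : ℝ) < A := by linarith
        have hr' : (1 : ℝ) ≤ r := by exact_mod_cast hr1
        have e4 : (1 / (A : ℝ) ^ 3) ^ d' ≤ (1 / (32 * r * (A : ℝ) ^ 2)) ^ d' := by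
          refine pow_le_pow_left₀ (by positivity) ?_ _
          refine one_div_le_one_div_of_le (by positivity) ?_
          calc 32 * (r : ℝ) * (A : ℝ) ^ 2 ≤ A * (A : ℝ) ^ 2 :=
                mul_le_mul_of_nonneg_right e3 (by positivity)
            _ = (A : ℝ) ^ 3 := by ring
        calc 8 * (q : ℝ) ≤ A := e1
          _ = (A : ℝ) ^ 1 := (pow_one _).symm
          _ ≤ (A : ℝ) ^ (5 * d') := pow_le_pow_right₀ hAr (by omega)
          _ = (1 / (A : ℝ) ^ 3) ^ d' * (A : ℝ) ^ (8 * d') := by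
              rw [one_div, inv_pow, ← pow_mul, show 8 * d' = 5 * d' + 3 * d' by ring, pow_add]
              field_simp
          _ ≤ (1 / (32 * r * (A : ℝ) ^ 2)) ^ d' * b :=
              mul_le_mul e4 e2 (by positivity) (by positivity)
      have hsmall := small_of' (t := t) (k := k') (τ := τ) (r := r) (d := d') (D := D) (n := a)
        (b := b) (A := A) hd1 hdD hr1 (hB1.trans hAB) (hB2.trans hAB) hA3 haA hA1 hτ.ge
      have hM8 : 8 * (t + 1) ≤ 2 ^ M := by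
        have e1 : t + 1 ≤ 2 ^ Nat.clog 2 (t + 1) := Nat.le_pow_clog (by norm_num) _
        rw [hM, pow_add]
        omega
      exact Circ.core_thr (by omega : m ≠ 0) hd1 C H
        (fun i => by
          rw [hk']
          exact ((hC i).mono (by omega : d ≤ d')).min_feedback) hX le_rfl
        (mpar_of (by omega) hr1) hNA (by omega : 2 ≤ q) (by omega : r < q)
        (by rw [← hu]; omega) hqb hsmall hM8 hE.ge (by rw [← hc₀]; exact hcon)
    -- the final bound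
    obtain ⟨Λ, hΛ⟩ : ∃ z : ℝ, z = c₃ * l := ⟨_, rfl⟩
    have hlr : (1 : ℝ) ≤ l := by exact_mod_cast hl1
    have hc₃r : (8 : ℝ) ≤ c₃ := by
      have : 8 ≤ c₃ := by omega
      exact_mod_cast this
    have hΛ1 : 1 ≤ Λ := by
      rw [hΛ]
      nlinarith
    have hΛs : (Nat.clog 2 (8 * s + 1) : ℝ) ≤ Λ := by
      have e1 : Nat.clog 2 (8 * s + 1) ≤ l + 3 := by
        rw [Nat.clog_le_iff_le_pow (by norm_num), pow_add]
        have e2 : s + t + 2 ≤ 2 ^ l := by
          rw [hl]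
          exact Nat.le_pow_clog (by norm_num) _
        omega
      have e2 : (Nat.clog 2 (8 * s + 1) : ℝ) ≤ l + 3 := by exact_mod_cast e1
      rw [hΛ]
      nlinarith
    have hk's : (k' : ℝ) ≤ s := by
      have : k' ≤ s := by omega
      exact_mod_cast this
    have hk'k : (k' : ℝ) ≤ k := by
      have : k' ≤ k := by omega
      exact_mod_cast this
    have hE1r : (E : ℝ) + 1 ≤ Λ * ((k' : ℝ) + 1) := by
      rw [hΛ]
      exact_mod_cast hE1
    have hE2r : (E : ℝ) + 1 ≤ Λ * ((s : ℝ) + 1) :=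
      hE1r.trans (mul_le_mul_of_nonneg_left (by linarith) (by linarith))
    obtain ⟨-, hit⟩ := hK₁ s E Λ hΛ1 hΛs hE2r
    obtain ⟨X, hXdef⟩ : ∃ z : ℝ, z = (((need s)^[h] E : ℕ) : ℝ) + 1 := ⟨_, rfl⟩
    rw [← hXdef] at hit
    have hX1 : 1 ≤ X := by
      have : (0 : ℝ) ≤ ((need s)^[h] E : ℕ) := Nat.cast_nonneg _
      rw [hXdef]
      linarith
    have haX : (a : ℝ) ≤ 8 ^ q * (c₀ + 1) * X := by
      have e1 : (a : ℝ) ≤ 8 ^ q * (((need s)^[h] E : ℕ) + c₀) := by exact_mod_cast hmain.le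
      have e2 : (((need s)^[h] E : ℕ) : ℝ) + c₀ ≤ (c₀ + 1) * X := by
        have e3 : (0 : ℝ) ≤ c₀ := Nat.cast_nonneg _
        rw [hXdef] at hX1 ⊢
        nlinarith
      calc (a : ℝ) ≤ 8 ^ q * (((need s)^[h] E : ℕ) + c₀) := e1
        _ ≤ 8 ^ q * ((c₀ + 1) * X) := mul_le_mul_of_nonneg_left e2 (by positivity)
        _ = _ := by ring
    have hc₁r : ((8 : ℝ) ^ q * (c₀ + 1)) ^ 2 ^ h = c₁ := by
      rw [hc₁]
      push_cast
      ring
    have h6Λ : 6 * Λ ≤ K * Lg := by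
      have e1 := clog_le_log (s + t)
      rw [← hl] at e1
      push_cast at e1
      rw [← hLg] at e1
      have e2 : (18 : ℝ) * c₃ ≤ K := by
        have : 18 * c₃ ≤ K := by omega
        exact_mod_cast this
      have e3 : 0 ≤ Lg := by linarith
      calc 6 * Λ = 6 * c₃ * l := by rw [hΛ]; ring
        _ ≤ 6 * c₃ * (3 * Lg) := mul_le_mul_of_nonneg_left e1 (by positivity)
        _ = 18 * c₃ * Lg := by ring
        _ ≤ K * Lg := mul_le_mul_of_nonneg_right e2 e3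
    have h6Λ0 : 0 ≤ 6 * Λ := by linarith
    calc (a : ℝ) ^ 2 ^ h ≤ (8 ^ q * (c₀ + 1) * X) ^ 2 ^ h :=
          pow_le_pow_left₀ (Nat.cast_nonneg _) haX _
      _ = c₁ * X ^ 2 ^ h := by rw [mul_pow (8 ^ q * ((c₀ : ℝ) + 1)), hc₁r]
      _ ≤ c₁ * ((6 * Λ) ^ K₁ * (s + 1) ^ (2 ^ h - 1) * ((E : ℝ) + 1)) :=
          mul_le_mul_of_nonneg_left hit (Nat.cast_nonneg _)
      _ ≤ c₁ * ((6 * Λ) ^ K₁ * (s + 1) ^ (2 ^ h - 1) * ((6 * Λ) * (k + 1))) := by
          refine mul_le_mul_of_nonneg_left ?_ (Nat.cast_nonneg _)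
          refine mul_le_mul_of_nonneg_left ?_ (by positivity)
          refine hE1r.trans ?_
          refine mul_le_mul (by linarith) (by linarith) (by positivity) h6Λ0
      _ = c₁ * (6 * Λ) ^ (K₁ + 1) * ((s + 1) ^ (2 ^ h - 1) * (k + 1)) := by
          rw [pow_succ]
          ring
      _ ≤ (K * Lg) ^ c₁ * (K * Lg) ^ (K₁ + 1) * ((s + 1) ^ (2 ^ h - 1) * (k + 1)) := by
          refine mul_le_mul_of_nonneg_right ?_ (by positivity)
          exact mul_le_mul (hpow c₁) (pow_le_pow_left₀ h6Λ0 h6Λ _) (by positivity) (by positivity)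
      _ ≤ (K * Lg) ^ K * ((s + 1) ^ (2 ^ h - 1) * (k + 1)) := by
          refine mul_le_mul_of_nonneg_right ?_ (by positivity)
          rw [← pow_add]
          exact pow_le_pow_right₀ hKL1 (by omega)
      _ = _ := by ring

end Pool.Agent.ALM
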