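import Pool.Agent.ALM.Core
import Pool.Agent.KCL.Numbers

/-!
# Numbers
-/

set_option autoImplicit false

namespace Pool.Agent.ALM

open Finset Pool.Agent.KCL

/-- One step of the recursion. -/
lemma need_step (s E : ℕ) {Λ : ℝ} (h1 : 1 ≤ Λ) (h2 : (Nat.clog 2 (8 * s + 1) : ℝ) ≤ Λ) :
    ((need s E : ℕ) : ℝ) + 1 ≤
      3 * Λ ^ 2 * (((E : ℝ) + 1) + Real.sqrt (((s : ℝ) + 1) * ((E : ℝ) + 1))) := by
  set x : ℝ := (E : ℝ) + 1 with hx
  have hE0 : (0 : ℝ) ≤ E := Nat.cast_nonneg _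
  have hs0 : (0 : ℝ) ≤ s := Nat.cast_nonneg _
  have hx1 : 1 ≤ x := by rw [hx]; linarith
  set S : ℝ := Real.sqrt (((s : ℝ) + 1) * x) with hS
  have hS1 : 1 ≤ S := by
    rw [hS, Real.one_le_sqrt]
    nlinarith
  have h3 : ((Nat.clog 2 (2 * (2 * s)) : ℕ) : ℝ) ≤ Λ := by
    refine le_trans ?_ h2
    exact_mod_cast Nat.clog_mono_right 2 (by omega)
  have h4 : ((Nat.sqrt (2 * s * (E + 1)) : ℕ) : ℝ) ≤ 3 / 2 * S := by
    refine Real.nat_sqrt_le_real_sqrt.trans ?_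
    rw [Real.sqrt_le_left (by positivity)]
    have e1 : (3 / 2 * S) ^ 2 = 9 / 4 * (((s : ℝ) + 1) * x) := by
      rw [mul_pow, hS, Real.sq_sqrt (by positivity)]
      norm_num
    rw [e1]
    push_cast
    rw [← hx]
    nlinarith
  have e1 : ((need s E : ℕ) : ℝ) = E + 1 + (Nat.clog 2 (8 * s + 1) : ℝ) *
      (((E : ℝ) + 1) + (Nat.clog 2 (2 * (2 * s)) : ℝ) *
        ((Nat.sqrt (2 * s * (E + 1)) : ℝ) + 1)) := by
    unfold need adeg
    push_cast
    ring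
  rw [e1, ← hx]
  have h5 : (Nat.clog 2 (2 * (2 * s)) : ℝ) * ((Nat.sqrt (2 * s * (E + 1)) : ℝ) + 1) ≤
      Λ * (5 / 2 * S) :=
    mul_le_mul h3 (by linarith) (by positivity) (by linarith)
  have h6 : (Nat.clog 2 (8 * s + 1) : ℝ) * (x + (Nat.clog 2 (2 * (2 * s)) : ℝ) *
      ((Nat.sqrt (2 * s * (E + 1)) : ℝ) + 1)) ≤ Λ * (x + Λ * (5 / 2 * S)) :=
    mul_le_mul h2 (by linarith) (by positivity) (by linarith)
  have h7 : Λ ≤ Λ ^ 2 := by nlinarith
  have h8 : Λ * x ≤ Λ ^ 2 * x := mul_le_mul_of_nonneg_right h7 (by linarith)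
  have h9 : x ≤ Λ ^ 2 * x := by nlinarith
  have h10 : 0 ≤ Λ ^ 2 * S := by positivity
  nlinarith

/-- The iterated recursion. -/
lemma need_iter (h : ℕ) : ∃ K : ℕ, ∀ (s E : ℕ) (Λ : ℝ), 1 ≤ Λ →
    (Nat.clog 2 (8 * s + 1) : ℝ) ≤ Λ → (E : ℝ) + 1 ≤ Λ * ((s : ℝ) + 1) →
      (((need s)^[h] E : ℕ) : ℝ) + 1 ≤ (6 * Λ) ^ K * ((s : ℝ) + 1) ∧
      ((((need s)^[h] E : ℕ) : ℝ) + 1) ^ 2 ^ h ≤
        (6 * Λ) ^ K * ((s : ℝ) + 1) ^ (2 ^ h - 1) * ((E : ℝ) + 1) := by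
  induction h with
  | zero =>
    refine ⟨1, fun s E Λ h1 h2 h3 => ?_⟩
    simp only [Function.iterate_zero, id_eq, pow_one, pow_zero, Nat.sub_self, mul_one]
    have hE0 : (0 : ℝ) ≤ E := Nat.cast_nonneg _
    have hs0 : (0 : ℝ) ≤ s := Nat.cast_nonneg _
    constructor <;> nlinarith
  | succ h ih =>
    obtain ⟨K, hK⟩ := ih
    refine ⟨(4 + 2 * K) * 2 ^ h + K, fun s E Λ h1 h2 h3 => ?_⟩
    obtain ⟨i1, i2⟩ := hK s E Λ h1 h2 h3
    rw [Function.iterate_succ_apply']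
    set e : ℕ := (need s)^[h] E with he
    set x : ℝ := (e : ℝ) + 1 with hx
    set s' : ℝ := (s : ℝ) + 1 with hs'
    have hs1 : 1 ≤ s' := by
      have : (0 : ℝ) ≤ s := Nat.cast_nonneg _
      rw [hs']
      linarith
    have hx1 : 1 ≤ x := by
      have : (0 : ℝ) ≤ e := Nat.cast_nonneg _
      rw [hx]
      linarith
    set R : ℝ := (6 * Λ) ^ K with hR
    have hR1 : 1 ≤ R := one_le_pow₀ (by linarith)
    have hst := need_step s e h1 h2
    rw [← hx, ← hs'] at hst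
    set y : ℝ := ((need s e : ℕ) : ℝ) + 1 with hy
    have hy0 : 0 ≤ y := by
      have : (0 : ℝ) ≤ (need s e : ℕ) := Nat.cast_nonneg _
      rw [hy]
      linarith
    -- `x` is at most `R * sqrt (s' * x)`
    have hxS : x ≤ R * Real.sqrt (s' * x) := by
      have e1 : x ^ 2 ≤ (R * Real.sqrt (s' * x)) ^ 2 := by
        rw [mul_pow, Real.sq_sqrt (by positivity)]
        have e2 : x * x ≤ (R * s') * x := mul_le_mul_of_nonneg_right i1 (by linarith)
        have e3 : R * (s' * x) ≤ R ^ 2 * (s' * x) :=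
          mul_le_mul_of_nonneg_right (by nlinarith) (by positivity)
        nlinarith
      exact le_of_sq_le_sq e1 (by positivity)
    have hS0 : 0 ≤ Real.sqrt (s' * x) := Real.sqrt_nonneg _
    have hyS : y ≤ 6 * Λ ^ 2 * R * Real.sqrt (s' * x) := by
      have e1 : Real.sqrt (s' * x) ≤ R * Real.sqrt (s' * x) := by nlinarith
      have e2 : 3 * Λ ^ 2 * (x + Real.sqrt (s' * x)) ≤
          3 * Λ ^ 2 * (R * Real.sqrt (s' * x) + R * Real.sqrt (s' * x)) :=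
        mul_le_mul_of_nonneg_left (by linarith) (by positivity)
      calc y ≤ 3 * Λ ^ 2 * (x + Real.sqrt (s' * x)) := hst
        _ ≤ _ := e2
        _ = 6 * Λ ^ 2 * R * Real.sqrt (s' * x) := by ring
    have hy2 : y ^ 2 ≤ (6 * Λ) ^ 4 * R ^ 2 * (s' * x) := by
      calc y ^ 2 ≤ (6 * Λ ^ 2 * R * Real.sqrt (s' * x)) ^ 2 := pow_le_pow_left₀ hy0 hyS 2
        _ = 36 * Λ ^ 4 * R ^ 2 * (s' * x) := by
            rw [mul_pow, Real.sq_sqrt (by positivity)]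
            ring
        _ ≤ (6 * Λ) ^ 4 * R ^ 2 * (s' * x) := by
            refine mul_le_mul_of_nonneg_right ?_ (by positivity)
            refine mul_le_mul_of_nonneg_right ?_ (by positivity)
            rw [mul_pow]
            have : 0 ≤ Λ ^ 4 := by positivity
            nlinarith
    have h6Λ : 1 ≤ 6 * Λ := by linarith
    have hK1 : (6 * Λ) ^ (4 + 2 * K) = (6 * Λ) ^ 4 * R ^ 2 := by
      rw [pow_add, hR, ← pow_mul, mul_comm 2 K]
    have h2h : 1 ≤ 2 ^ h := Nat.one_le_two_pow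
    constructor
    · -- the first bound
      have e1 : y ^ 2 ≤ ((6 * Λ) ^ (4 + 2 * K + K) * s') ^ 2 := by
        calc y ^ 2 ≤ (6 * Λ) ^ 4 * R ^ 2 * (s' * x) := hy2
          _ ≤ (6 * Λ) ^ 4 * R ^ 2 * (s' * (R * s')) := by
              refine mul_le_mul_of_nonneg_left ?_ (by positivity)
              exact mul_le_mul_of_nonneg_left i1 (by linarith)
          _ = (6 * Λ) ^ (4 + 2 * K + K) * s' ^ 2 := by
              rw [pow_add (6 * Λ) (4 + 2 * K) K, hK1, ← hR]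
              ring
          _ ≤ ((6 * Λ) ^ (4 + 2 * K + K)) ^ 2 * s' ^ 2 := by
              refine mul_le_mul_of_nonneg_right ?_ (by positivity)
              have : 1 ≤ (6 * Λ) ^ (4 + 2 * K + K) := one_le_pow₀ h6Λ
              nlinarith
          _ = _ := (mul_pow _ _ _).symm
      refine (le_of_sq_le_sq e1 (by positivity)).trans ?_
      refine mul_le_mul_of_nonneg_right (pow_le_pow_right₀ h6Λ ?_) (by linarith)
      have : 4 + 2 * K ≤ (4 + 2 * K) * 2 ^ h := Nat.le_mul_of_pos_right _ (by omega)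
      omega
    · have e1 : y ^ 2 ^ (h + 1) = (y ^ 2) ^ 2 ^ h := by
        rw [← pow_mul, pow_succ, mul_comm]
      have e2 : 2 ^ (h + 1) - 1 = 2 ^ h + (2 ^ h - 1) := by
        rw [pow_succ]
        omega
      have hE0 : (0 : ℝ) ≤ (E : ℝ) + 1 := by positivity
      calc y ^ 2 ^ (h + 1) = (y ^ 2) ^ 2 ^ h := e1
        _ ≤ ((6 * Λ) ^ 4 * R ^ 2 * (s' * x)) ^ 2 ^ h := pow_le_pow_left₀ (by positivity) hy2 _
        _ = ((6 * Λ) ^ (4 + 2 * K)) ^ 2 ^ h * s' ^ 2 ^ h * x ^ 2 ^ h := by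
            rw [← hK1, mul_pow ((6 * Λ) ^ (4 + 2 * K)), mul_pow s', mul_assoc]
        _ ≤ ((6 * Λ) ^ (4 + 2 * K)) ^ 2 ^ h * s' ^ 2 ^ h *
            ((6 * Λ) ^ K * s' ^ (2 ^ h - 1) * ((E : ℝ) + 1)) :=
            mul_le_mul_of_nonneg_left i2 (by positivity)
        _ = (6 * Λ) ^ ((4 + 2 * K) * 2 ^ h + K) * s' ^ (2 ^ (h + 1) - 1) * ((E : ℝ) + 1) := by
            rw [e2, pow_add (6 * Λ) ((4 + 2 * K) * 2 ^ h) K, pow_mul (6 * Λ) (4 + 2 * K), pow_add s']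
            generalize (6 * Λ) ^ (4 + 2 * K) = Z1
            generalize (6 * Λ) ^ K = Z2
            ring

/-- The smallness of the error. -/
lemma small_of' {A r d D n b t k τ : ℕ} (hd : 1 ≤ d) (hD : d ≤ D) (hr : 1 ≤ r)
    (hA1 : 32 * r ≤ A) (hA2 : 2 ^ (d + 1) ≤ A) (hA3 : 200 * D ≤ A) (hn : n ≤ A ^ (16 * D))
    (hb : A ^ (8 * d) ≤ b) (hτ : k + Nat.clog 2 t ≤ τ) :
    (t * 2 ^ k : ℝ) * (d * (2 ^ (d * τ) * (1 / (A : ℝ) ^ 2 * A) ^ (τ + 1))) +
      2 * n * Real.exp (-(((1 / (32 * r * (A : ℝ) ^ 2)) ^ d) ^ 2 * b / 8)) < 1 := by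
  have hA0 : 200 ≤ A := by omega
  have hA' : (200 : ℝ) ≤ A := by exact_mod_cast hA0
  have hApos : (0 : ℝ) < A := by linarith
  have hr' : (1 : ℝ) ≤ r := by exact_mod_cast hr
  have hd' : (1 : ℝ) ≤ d := by exact_mod_cast hd
  have hDd : (d : ℝ) ≤ D := by exact_mod_cast hD
  -- the first term
  have h1 : (t * 2 ^ k : ℝ) * (d * (2 ^ (d * τ) * (1 / (A : ℝ) ^ 2 * A) ^ (τ + 1))) ≤ 1 / 4 := by
    have e1 : (1 / (A : ℝ) ^ 2 * A) = 1 / A := by field_simp
    rw [e1]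
    have e2 : (t : ℝ) * 2 ^ k ≤ 2 ^ τ := by
      have e3 : (t : ℝ) ≤ 2 ^ Nat.clog 2 t := by exact_mod_cast Nat.le_pow_clog (by norm_num) t
      calc (t : ℝ) * 2 ^ k ≤ 2 ^ Nat.clog 2 t * 2 ^ k :=
            mul_le_mul_of_nonneg_right e3 (by positivity)
        _ = 2 ^ (k + Nat.clog 2 t) := by rw [pow_add]; ring
        _ ≤ 2 ^ τ := pow_le_pow_right₀ (by norm_num) hτ
    have hA2' : (2 : ℝ) ^ (d + 1) ≤ A := by exact_mod_cast hA2
    have e3 : (2 : ℝ) ^ (d * τ) * (1 / A) ^ (τ + 1) ≤ (1 / 2) ^ τ * (1 / A) := by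
      rw [pow_succ, ← mul_assoc]
      refine mul_le_mul_of_nonneg_right ?_ (by positivity)
      rw [pow_mul, ← mul_pow]
      refine pow_le_pow_left₀ (by positivity) ?_ τ
      rw [mul_one_div, div_le_iff₀ hApos]
      rw [pow_succ] at hA2'
      linarith
    have e4 : (d : ℝ) ≤ A / 4 := by
      have e5 : (200 : ℝ) * D ≤ A := by exact_mod_cast hA3
      linarith
    calc (t * 2 ^ k : ℝ) * (d * (2 ^ (d * τ) * (1 / (A : ℝ)) ^ (τ + 1)))
        ≤ 2 ^ τ * (A / 4 * ((1 / 2) ^ τ * (1 / A))) := by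
          refine mul_le_mul e2 ?_ (by positivity) (by positivity)
          exact mul_le_mul e4 e3 (by positivity) (by positivity)
      _ = (2 * (1 / 2)) ^ τ * (1 / 4) := by
          rw [mul_pow]
          field_simp
      _ = 1 / 4 := by norm_num
  -- the second term
  have h2 : 2 * (n : ℝ) * Real.exp (-(((1 / (32 * r * (A : ℝ) ^ 2)) ^ d) ^ 2 * b / 8)) ≤
      1 / 2 := by
    have e1 : (A : ℝ) ^ 2 ≤ ((1 / (32 * r * (A : ℝ) ^ 2)) ^ d) ^ 2 * b := by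
      have e2 : ((A : ℝ) ^ (8 * d)) ≤ b := by exact_mod_cast hb
      have e3 : (32 : ℝ) * r ≤ A := by exact_mod_cast hA1
      have e4 : (1 / (A : ℝ) ^ 3) ^ (2 * d) ≤ ((1 / (32 * r * (A : ℝ) ^ 2)) ^ d) ^ 2 := by
        rw [← pow_mul, mul_comm d 2]
        refine pow_le_pow_left₀ (by positivity) ?_ _
        refine one_div_le_one_div_of_le (by positivity) ?_
        calc 32 * (r : ℝ) * (A : ℝ) ^ 2 ≤ A * (A : ℝ) ^ 2 :=
              mul_le_mul_of_nonneg_right e3 (by positivity)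
          _ = (A : ℝ) ^ 3 := by ring
      calc (A : ℝ) ^ 2 ≤ (A : ℝ) ^ (2 * d) :=
            pow_le_pow_right₀ (by linarith) (by omega)
        _ = (1 / (A : ℝ) ^ 3) ^ (2 * d) * (A : ℝ) ^ (8 * d) := by
            rw [one_div, inv_pow, ← pow_mul, show 8 * d = 2 * d + 3 * (2 * d) by ring, pow_add]
            field_simp
        _ ≤ ((1 / (32 * r * (A : ℝ) ^ 2)) ^ d) ^ 2 * b :=
            mul_le_mul e4 e2 (by positivity) (by positivity)
    have e2 : (4 : ℝ) * n ≤ Real.exp (((1 / (32 * r * (A : ℝ) ^ 2)) ^ d) ^ 2 * b / 8) := by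
      have e3 : (n : ℝ) ≤ (A : ℝ) ^ (16 * D) := by exact_mod_cast hn
      have e4 : (A : ℝ) ^ (25 * D) ≤ Real.exp ((A : ℝ) ^ 2 / 8) := by
        calc (A : ℝ) ^ (25 * D) ≤ Real.exp A ^ (25 * D) := by
              refine pow_le_pow_left₀ hApos.le ?_ _
              have := Real.add_one_le_exp (A : ℝ)
              linarith
          _ = Real.exp ((25 * D : ℕ) * A) := by rw [Real.exp_nat_mul]
          _ ≤ Real.exp ((A : ℝ) ^ 2 / 8) := by
              refine Real.exp_le_exp.mpr ?_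
              have e5 : (200 : ℝ) * D ≤ A := by exact_mod_cast hA3
              push_cast
              nlinarith
      have e5 : (4 : ℝ) * (A : ℝ) ^ (16 * D) ≤ (A : ℝ) ^ (25 * D) := by
        rw [show 25 * D = 9 * D + 16 * D by ring, pow_add]
        refine mul_le_mul_of_nonneg_right ?_ (by positivity)
        calc (4 : ℝ) ≤ A := by linarith
          _ = (A : ℝ) ^ 1 := (pow_one _).symm
          _ ≤ (A : ℝ) ^ (9 * D) := pow_le_pow_right₀ (by linarith) (by omega)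
      have e6 : Real.exp ((A : ℝ) ^ 2 / 8) ≤
          Real.exp (((1 / (32 * r * (A : ℝ) ^ 2)) ^ d) ^ 2 * b / 8) :=
        Real.exp_le_exp.mpr (by linarith)
      linarith
    rw [Real.exp_neg]
    set E := Real.exp (((1 / (32 * r * (A : ℝ) ^ 2)) ^ d) ^ 2 * b / 8) with hE
    have hE0 : 0 < E := Real.exp_pos _
    rw [← div_eq_mul_inv, div_le_iff₀ hE0]
    linarith
  linarith

end Pool.Agent.ALM
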